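import Pool.Agent.Helper79_ASO.WTHD

/-!
# Squad ASO, row WTH: the value of `W13`
-/

open scoped BigOperators

set_option autoImplicit false
set_option linter.unusedSectionVars false

noncomputable section

namespace Pool.Agent.PP.SO.H79

open Pool.Agent.Helper51_AWC Pool.Agent.Helper79_WRA Pool.Agent.PP Pool.Agent.PP.KF
open Pool.Agent.PP.K9 Pool.Agent.PP.K9.H97 Pool.Agent.PP.H75 Pool.Agent.PP.T3

attribute [local instance] Ideal.Quotient.field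

section w13

variable {V₀ G : Type} [CommGroup V₀] [Finite V₀] [Group G] [Fintype G]
  {M : Ideal (integralClosure ℤ ℂ)} [M.IsMaximal] {n : ℕ}

/-- `W13` as a sum over quadruples -/
theorem w13_quad (B : Bk (FF M) V₀ G) (m : ℕ) (c d : V₀) (L : Set (SS n V₀)) :
    W13 B m c d L = ((Nat.card (B.C (pL L ⊔ Subgroup.zpowers c)) : ℂ) *
      Nat.card (B.C (qL L ⊔ Subgroup.zpowers d)))⁻¹ *
      ∑ a : G × G × G × G, bh B (pL L ⊔ Subgroup.zpowers c) ((B.i c)⁻¹ * (a.1 * a.2.1⁻¹)) *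
        bh B (qL L ⊔ Subgroup.zpowers d) ((B.i d)⁻¹ *
          ((a.2.2.1⁻¹ * a.2.1 * a.2.2.1) * (a.2.2.2⁻¹ * a.1⁻¹ * a.2.2.2))) *
        (ind B m (Lm L) a.2.1 a.2.2.1 * ind B m (Lp L) a.1 a.2.2.2) := by
  classical
  unfold W13
  rw [finsum_eq_sum_of_fintype]
  congr 1
  rw [reparam (bh B (pL L ⊔ Subgroup.zpowers c)) (bh B (qL L ⊔ Subgroup.zpowers d)) (B.i c) (B.i d)
    (fun g x y u => ∀ s ∈ L, c13 m B.i g x y u s.1 s.2.1 s.2.2.1 s.2.2.2)]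
  refine Finset.sum_congr rfl fun a _ => ?_
  by_cases hg : (B.i c)⁻¹ * (a.1 * a.2.1⁻¹) ∈ B.C (pL L ⊔ Subgroup.zpowers c)
  · have hg' : a.1 * a.2.1⁻¹ ∈ B.C (pL L) := by
      have h1 := (B.C (pL L)).mul_mem (H3.i_mem B (pL L) c) (H3.C_anti B le_sup_left hg)
      rwa [mul_inv_cancel_left] at h1
    congr 1
    have h2 := cond_iff B m L a.1 a.2.1 a.2.2.1 a.2.2.2 hg'
    by_cases h3 : ∀ s ∈ L, c13 m B.i (a.1 * a.2.1⁻¹) a.1 (a.2.2.1 * a.2.2.2⁻¹) a.2.2.1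
        s.1 s.2.1 s.2.2.1 s.2.2.2
    · rw [if_pos h3]
      have h4 := h2.1 h3
      rw [ind, ind, p1_Lm, p1_Lp, if_pos h4.1, if_pos h4.2, one_mul]
    · rw [if_neg h3]
      by_cases h5 : a.2.1 ∈ B.C (pL L) ∧ PL B.i m (Lm L) a.2.1 a.2.2.1
      · have h6 : ¬ (a.1 ∈ B.C (pL L) ∧ PL B.i m (Lp L) a.1 a.2.2.2) := fun h6 =>
          h3 (h2.2 ⟨h5, h6⟩)
        rw [ind, ind, p1_Lm, p1_Lp, if_neg h6, mul_zero]
      · rw [ind, ind, p1_Lm, p1_Lp, if_neg h5, zero_mul]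
  · simp only [H3.bh_supp B _ hg, zero_mul]

theorem fc_sum (B : Bk (FF M) V₀ G) (W : Subgroup V₀) [Fintype (B.C W)] (c : V₀) (g : G) :
    ∑ z : B.C W, bh B (W ⊔ Subgroup.zpowers c) ((B.i c)⁻¹ * ((z : G)⁻¹ * g * z)) =
      (Nat.card (B.C (W ⊔ Subgroup.zpowers c)) : ℂ) * fc B W c g := by
  have h0 : (Nat.card (B.C (W ⊔ Subgroup.zpowers c)) : ℂ) ≠ 0 := by
    exact_mod_cast Nat.card_pos.ne'
  unfold fc
  rw [← mul_assoc, mul_inv_cancel₀ h0, one_mul, finsum_eq_sum_of_fintype]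

/-- the mean over the centralisers -/
theorem w13_fc (B : Bk (FF M) V₀ G) (m : ℕ) (c d : V₀) (L : Set (SS n V₀)) :
    W13 B m c d L = ((Nat.card (B.C (pL L)) : ℂ) * Nat.card (B.C (qL L)))⁻¹ *
      ∑ a : G × G × G × G, fc B (pL L) c (a.1 * a.2.1⁻¹) *
        fc B (qL L) d ((a.2.2.1⁻¹ * a.2.1 * a.2.2.1) * (a.2.2.2⁻¹ * a.1⁻¹ * a.2.2.2)) *
        (ind B m (Lm L) a.2.1 a.2.2.1 * ind B m (Lp L) a.1 a.2.2.2) := by
  classical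
  have i1 := Fintype.ofFinite (B.C (pL L))
  have i2 := Fintype.ofFinite (B.C (qL L))
  have hI : Inv2 (B.C (pL L)) (B.C (qL L)) (ind B m (Lm L)) := by
    have := ind_inv B m (Lm L)
    rwa [p1_Lm, p2_Lm] at this
  have hJ : Inv2 (B.C (pL L)) (B.C (qL L)) (ind B m (Lp L)) := by
    have := ind_inv B m (Lp L)
    rwa [p1_Lp, p2_Lp] at this
  have h1 := avg4 (B.C (pL L)) (B.C (qL L))
    (fun g => bh B (pL L ⊔ Subgroup.zpowers c) ((B.i c)⁻¹ * g))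
    (fun g => bh B (qL L ⊔ Subgroup.zpowers d) ((B.i d)⁻¹ * g)) _ _ hI hJ
  simp only [fc_sum] at h1
  rw [w13_quad]
  have hk1 : (Nat.card (B.C (pL L ⊔ Subgroup.zpowers c)) : ℂ) ≠ 0 := by
    exact_mod_cast Nat.card_pos.ne'
  have hk2 : (Nat.card (B.C (qL L ⊔ Subgroup.zpowers d)) : ℂ) ≠ 0 := by
    exact_mod_cast Nat.card_pos.ne'
  have hc1 : (Nat.card (B.C (pL L)) : ℂ) ≠ 0 := by exact_mod_cast Nat.card_pos.ne'
  have hc2 : (Nat.card (B.C (qL L)) : ℂ) ≠ 0 := by exact_mod_cast Nat.card_pos.ne'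
  rw [← Nat.card_eq_fintype_card, ← Nat.card_eq_fintype_card] at h1
  have h2 : ∑ a : G × G × G × G, (Nat.card (B.C (pL L ⊔ Subgroup.zpowers c)) : ℂ) *
      fc B (pL L) c (a.1 * a.2.1⁻¹) * ((Nat.card (B.C (qL L ⊔ Subgroup.zpowers d)) : ℂ) *
        fc B (qL L) d ((a.2.2.1⁻¹ * a.2.1 * a.2.2.1) * (a.2.2.2⁻¹ * a.1⁻¹ * a.2.2.2))) *
        (ind B m (Lm L) a.2.1 a.2.2.1 * ind B m (Lp L) a.1 a.2.2.2) =
      ((Nat.card (B.C (pL L ⊔ Subgroup.zpowers c)) : ℂ) *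
        Nat.card (B.C (qL L ⊔ Subgroup.zpowers d))) *
      ∑ a : G × G × G × G, fc B (pL L) c (a.1 * a.2.1⁻¹) *
        fc B (qL L) d ((a.2.2.1⁻¹ * a.2.1 * a.2.2.1) * (a.2.2.2⁻¹ * a.1⁻¹ * a.2.2.2)) *
        (ind B m (Lm L) a.2.1 a.2.2.1 * ind B m (Lp L) a.1 a.2.2.2) := by
    rw [Finset.mul_sum]
    refine Finset.sum_congr rfl fun a _ => ?_
    ring
  rw [h2] at h1
  rw [inv_mul_eq_iff_eq_mul₀ (mul_ne_zero hk1 hk2)]
  apply mul_left_cancel₀ (mul_ne_zero hc1 hc2)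
  rw [h1]
  field_simp

/-- `W13` in terms of the sums `SL` -/
theorem w13_SL (B : Bk (FF M) V₀ G) (m : ℕ) (c d : V₀) (L : Set (SS n V₀))
    (h1 : ∀ χ : G → ℂ, (∀ x, x ∉ B.C (pL L) → χ x = 0) →
      (fun t : B.C (pL L) => χ t) ∈ Irr (B.C (pL L)) → χ ∉ Ch B (pL L) →
      cv (fc B (pL L) c) χ = 0)
    (h2 : ∀ χ : G → ℂ, (∀ x, x ∉ B.C (qL L) → χ x = 0) →
      (fun t : B.C (qL L) => χ t) ∈ Irr (B.C (qL L)) → χ ∉ Ch B (qL L) →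
      cv (fc B (qL L) d) χ = 0) :
    W13 B m c d L = (((Nat.card (B.C (pL L)) : ℂ) * Nat.card (B.C (qL L))) ^ 2)⁻¹ *
      ∑ χ ∈ (ch_finite B (pL L)).toFinset, ∑ χ' ∈ (ch_finite B (qL L)).toFinset,
        cv (fc B (pL L) c) χ * cv (fc B (qL L) d) χ' *
          (SL B m (Lm L) χ χ' * starRingEnd ℂ (SL B m (Lp L) χ χ')) := by
  classical
  have i1 := Fintype.ofFinite (B.C (pL L))
  have i2 := Fintype.ofFinite (B.C (qL L))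
  have hI : Inv2 (B.C (pL L)) (B.C (qL L)) (ind B m (Lm L)) := by
    have := ind_inv B m (Lm L)
    rwa [p1_Lm, p2_Lm] at this
  have hs : ∀ X u, ind B m (Lm L) X u ≠ 0 → X ∈ B.C (pL L) ∧ u⁻¹ * X⁻¹ * u ∈ B.C (qL L) := by
    intro X u h
    have := ind_supp B m (Lm L) X u h
    rwa [p1_Lm, p2_Lm] at this
  have hs' : ∀ X u, ind B m (Lp L) X u ≠ 0 → X ∈ B.C (pL L) ∧ u⁻¹ * X⁻¹ * u ∈ B.C (qL L) := by
    intro X u h
    have := ind_supp B m (Lp L) X u h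
    rwa [p1_Lp, p2_Lp] at this
  have hc1 : (Nat.card (B.C (pL L)) : ℂ) ≠ 0 := by exact_mod_cast Nat.card_pos.ne'
  have hc2 : (Nat.card (B.C (qL L)) : ℂ) ≠ 0 := by exact_mod_cast Nat.card_pos.ne'
  have h3 : ∀ χ ∈ (ch_finite B (pL L)).toFinset, ∀ χ' ∈ (ch_finite B (qL L)).toFinset,
      ∑ a : G × G × G × G, χ (a.2.1 * a.1⁻¹) *
        χ' ((a.2.2.2⁻¹ * a.1 * a.2.2.2) * (a.2.2.1⁻¹ * a.2.1⁻¹ * a.2.2.1)) *
        (ind B m (Lm L) a.2.1 a.2.2.1 * ind B m (Lp L) a.1 a.2.2.2) =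
      (χ 1 * χ' 1)⁻¹ * SL B m (Lm L) χ χ' * starRingEnd ℂ (SL B m (Lp L) χ χ') := by
    intro χ hχ χ' hχ'
    rw [Set.Finite.mem_toFinset] at hχ hχ'
    rw [split4 (B.C (pL L)) (B.C (qL L)) hχ.2.1 hχ'.2.1 _ _ hI hs hs',
      SL_eq B m (Lm L) χ χ' (by rw [p1_Lm]; exact hχ.1),
      SL_star B m (Lp L) χ χ' (by rw [p1_Lp]; exact hχ.1) (ch_star hχ.1 hχ.2.1)
        (ch_star hχ'.1 hχ'.2.1)]
  rw [w13_fc]
  have h4 : ∑ a : G × G × G × G, fc B (pL L) c (a.1 * a.2.1⁻¹) *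
        fc B (qL L) d ((a.2.2.1⁻¹ * a.2.1 * a.2.2.1) * (a.2.2.2⁻¹ * a.1⁻¹ * a.2.2.2)) *
        (ind B m (Lm L) a.2.1 a.2.2.1 * ind B m (Lp L) a.1 a.2.2.2) =
      ∑ χ ∈ (ch_finite B (pL L)).toFinset, ∑ χ' ∈ (ch_finite B (qL L)).toFinset,
        (cv (fc B (pL L) c) χ * (χ 1 / Nat.card (B.C (pL L)))) *
        (cv (fc B (qL L) d) χ' * (χ' 1 / Nat.card (B.C (qL L)))) *
        ∑ a : G × G × G × G, χ (a.2.1 * a.1⁻¹) *
          χ' ((a.2.2.2⁻¹ * a.1 * a.2.2.2) * (a.2.2.1⁻¹ * a.2.1⁻¹ * a.2.2.1)) *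
          (ind B m (Lm L) a.2.1 a.2.2.1 * ind B m (Lp L) a.1 a.2.2.2) := by
    simp only [Finset.mul_sum]
    rw [Finset.sum_congr rfl fun χ _ => Finset.sum_comm, Finset.sum_comm]
    refine Finset.sum_congr rfl fun a _ => ?_
    rw [fc_expand B (pL L) c h1 (a.1 * a.2.1⁻¹), fc_expand B (qL L) d h2
      ((a.2.2.1⁻¹ * a.2.1 * a.2.2.1) * (a.2.2.2⁻¹ * a.1⁻¹ * a.2.2.2)), Finset.sum_mul_sum,
      Finset.sum_mul]
    refine Finset.sum_congr rfl fun χ _ => ?_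
    rw [Finset.sum_mul]
    refine Finset.sum_congr rfl fun χ' _ => ?_
    have e1 : (a.1 * a.2.1⁻¹)⁻¹ = a.2.1 * a.1⁻¹ := by group
    have e2 : ((a.2.2.1⁻¹ * a.2.1 * a.2.2.1) * (a.2.2.2⁻¹ * a.1⁻¹ * a.2.2.2))⁻¹ =
        (a.2.2.2⁻¹ * a.1 * a.2.2.2) * (a.2.2.1⁻¹ * a.2.1⁻¹ * a.2.2.1) := by group
    rw [e1, e2]
    ring
  rw [h4, Finset.mul_sum, Finset.mul_sum]
  refine Finset.sum_congr rfl fun χ hχ => ?_
  rw [Finset.mul_sum, Finset.mul_sum]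
  refine Finset.sum_congr rfl fun χ' hχ' => ?_
  rw [h3 χ hχ χ' hχ']
  have n1 : χ 1 ≠ 0 := one_sub _ ((Set.Finite.mem_toFinset _).1 hχ).2.1
  have n2 : χ' 1 ≠ 0 := one_sub _ ((Set.Finite.mem_toFinset _).1 hχ').2.1
  field_simp

end w13

section fin

variable {V₀ : Type} [CommGroup V₀] [Finite V₀] {n : ℕ}

/-- the solutions for `L'` -/
def TT (E₀ : Subgroup (MulAut V₀)) (L' : Set (V₀ × V₀ × ℤ)) : Set (MulAut V₀ × V₀) :=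
  {w | w.1 ∈ E₀ ∧ ∀ s ∈ L', w.1 (s.1 * w.2 ^ s.2.2) = s.2.1}

instance finAut : Finite (MulAut V₀) := DFunLike.finite (MulAut V₀)

theorem n13_eq (E₀ : Subgroup (MulAut V₀)) (c d : V₀) (L : Set (SS n V₀)) :
    N13 E₀ c d L = {v : (MulAut V₀ × V₀) × (MulAut V₀ × V₀) | v.1 ∈ TT E₀ (Lm L) ∧
      v.2 ∈ TT E₀ (Lp L) ∧ c * v.1.2 = v.2.2 ∧ d * v.2.1 v.2.2 = v.1.1 v.1.2}.ncard := by
  unfold N13
  have hinj : Function.Injective (fun w : E₀ × E₀ × V₀ =>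
      (((w.1 : MulAut V₀), w.2.2), ((w.2.1 : MulAut V₀), c * w.2.2))) := by
    rintro ⟨a, b, x⟩ ⟨a', b', x'⟩ h
    simp only [Prod.mk.injEq] at h
    obtain ⟨⟨h1, h2⟩, h3, -⟩ := h
    rw [Subtype.ext h1, Subtype.ext h3, h2]
  rw [← Set.ncard_image_of_injective _ hinj]
  congr 1
  ext v
  constructor
  · rintro ⟨w, ⟨h1, h2⟩, rfl⟩
    refine ⟨⟨w.1.2, ?_⟩, ⟨w.2.1.2, ?_⟩, rfl, h1.symm⟩
    · rintro _ ⟨s, hs, rfl⟩
      have := (h2 s hs).1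
      simp only [zpow_neg, zpow_natCast]
      exact this
    · rintro _ ⟨s, hs, rfl⟩
      have := (h2 s hs).2
      simp only [zpow_natCast]
      exact this
  · rintro ⟨h1, h2, h3, h4⟩
    refine ⟨(⟨v.1.1, h1.1⟩, ⟨v.2.1, h2.1⟩, v.1.2), ⟨?_, fun s hs => ⟨?_, ?_⟩⟩, ?_⟩
    · show v.1.1 v.1.2 = d * v.2.1 (c * v.1.2)
      rw [h3, h4]
    · have := h1.2 _ ⟨s, hs, rfl⟩
      simp only [zpow_neg, zpow_natCast] at this
      exact this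
    · have := h2.2 _ ⟨s, hs, rfl⟩
      simp only [zpow_natCast] at this
      show v.2.1 (s.2.2.1 * (c * v.1.2) ^ (s.1 : ℕ)) = s.2.2.2
      rw [h3]
      exact this
    · exact Prod.ext rfl (Prod.ext rfl h3)

open Classical in
/-- the sum over the pairs of linear characters -/
theorem lin_double [Fintype (lin V₀)] [Fintype (MulAut V₀)] [Fintype V₀]
    (E₀ : Subgroup (MulAut V₀)) (c d : V₀) (L : Set (SS n V₀)) :
    ∑ f : lin V₀, ∑ f' : lin V₀, f.1 c * f'.1 d *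
      ((∑ᶠ w ∈ TT E₀ (Lm L), f.1 w.2 * starRingEnd ℂ (f'.1 (w.1 w.2))) *
        starRingEnd ℂ (∑ᶠ w ∈ TT E₀ (Lp L), f.1 w.2 * starRingEnd ℂ (f'.1 (w.1 w.2)))) =
      (Nat.card V₀ : ℂ) ^ 2 * N13 E₀ c d L := by
  have hF : ∀ (S : Set (MulAut V₀ × V₀)) (g : MulAut V₀ × V₀ → ℂ),
      ∑ᶠ w ∈ S, g w = ∑ w ∈ S.toFinset, g w := fun S g => by
    rw [finsum_mem_eq_toFinset_sum]
  simp only [hF, map_sum, map_mul, Complex.conj_conj]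
  have h1 : ∀ f f' : lin V₀, f.1 c * f'.1 d *
      ((∑ w ∈ (TT E₀ (Lm L)).toFinset, f.1 w.2 * starRingEnd ℂ (f'.1 (w.1 w.2))) *
        ∑ w ∈ (TT E₀ (Lp L)).toFinset, starRingEnd ℂ (f.1 w.2) * f'.1 (w.1 w.2)) =
      ∑ w ∈ (TT E₀ (Lm L)).toFinset, ∑ w' ∈ (TT E₀ (Lp L)).toFinset,
        f.1 (c * w.2 * w'.2⁻¹) * f'.1 (d * w'.1 w'.2 * (w.1 w.2)⁻¹) := by
    intro f f'
    rw [Finset.sum_mul_sum, Finset.mul_sum]
    refine Finset.sum_congr rfl fun w _ => ?_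
    rw [Finset.mul_sum]
    refine Finset.sum_congr rfl fun w' _ => ?_
    rw [lin_star f.2, lin_star f'.2, f.2.2, f.2.2, f'.2.2, f'.2.2]
    ring
  rw [Finset.sum_congr rfl fun f _ => Finset.sum_congr rfl fun f' _ => h1 f f']
  have h2 : ∑ f : lin V₀, ∑ f' : lin V₀, ∑ w ∈ (TT E₀ (Lm L)).toFinset,
      ∑ w' ∈ (TT E₀ (Lp L)).toFinset,
        f.1 (c * w.2 * w'.2⁻¹) * f'.1 (d * w'.1 w'.2 * (w.1 w.2)⁻¹) =
      ∑ w ∈ (TT E₀ (Lm L)).toFinset, ∑ w' ∈ (TT E₀ (Lp L)).toFinset,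
        (∑ f : lin V₀, f.1 (c * w.2 * w'.2⁻¹)) *
          ∑ f' : lin V₀, f'.1 (d * w'.1 w'.2 * (w.1 w.2)⁻¹) := by
    have h3 : ∀ f : lin V₀, ∑ f' : lin V₀, ∑ w ∈ (TT E₀ (Lm L)).toFinset,
        ∑ w' ∈ (TT E₀ (Lp L)).toFinset,
          f.1 (c * w.2 * w'.2⁻¹) * f'.1 (d * w'.1 w'.2 * (w.1 w.2)⁻¹) =
        ∑ w ∈ (TT E₀ (Lm L)).toFinset, ∑ w' ∈ (TT E₀ (Lp L)).toFinset, ∑ f' : lin V₀,
          f.1 (c * w.2 * w'.2⁻¹) * f'.1 (d * w'.1 w'.2 * (w.1 w.2)⁻¹) := by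
      intro f
      rw [Finset.sum_comm]
      exact Finset.sum_congr rfl fun w _ => Finset.sum_comm
    rw [Finset.sum_congr rfl fun f _ => h3 f, Finset.sum_comm]
    refine Finset.sum_congr rfl fun w _ => ?_
    rw [Finset.sum_comm]
    refine Finset.sum_congr rfl fun w' _ => ?_
    rw [Finset.sum_mul_sum]
  rw [h2]
  simp only [lin_sum]
  have h4 : ∀ w w' : MulAut V₀ × V₀, ((if c * w.2 * w'.2⁻¹ = 1 then (Nat.card V₀ : ℂ) else 0) *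
      if d * w'.1 w'.2 * (w.1 w.2)⁻¹ = 1 then (Nat.card V₀ : ℂ) else 0) =
      (Nat.card V₀ : ℂ) ^ 2 * if c * w.2 = w'.2 ∧ d * w'.1 w'.2 = w.1 w.2 then 1 else 0 := by
    intro w w'
    rw [mul_inv_eq_one, mul_inv_eq_one]
    by_cases h5 : c * w.2 = w'.2
    · by_cases h6 : d * w'.1 w'.2 = w.1 w.2
      · rw [if_pos h5, if_pos h6, if_pos ⟨h5, h6⟩]
        ring
      · have h7 : ¬ (c * w.2 = w'.2 ∧ d * w'.1 w'.2 = w.1 w.2) := fun h => h6 h.2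
        rw [if_neg h6, if_neg h7, mul_zero, mul_zero]
    · have h7 : ¬ (c * w.2 = w'.2 ∧ d * w'.1 w'.2 = w.1 w.2) := fun h => h5 h.1
      rw [if_neg h5, if_neg h7, zero_mul, mul_zero]
  rw [Finset.sum_congr rfl fun w _ => Finset.sum_congr rfl fun w' _ => h4 w w']
  simp only [← Finset.mul_sum]
  congr 1
  rw [n13_eq, ← Finset.sum_product' (f := fun w w' : MulAut V₀ × V₀ =>
    if c * w.2 = w'.2 ∧ d * w'.1 w'.2 = w.1 w.2 then (1 : ℂ) else 0), Finset.sum_boole]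
  congr 1
  rw [← Set.ncard_coe_finset]
  congr 1
  ext v
  simp only [Finset.coe_filter, Finset.mem_product, Set.mem_toFinset]
  constructor
  · rintro ⟨⟨h1, h2⟩, h3, h4⟩
    exact ⟨h1, h2, h3, h4⟩
  · rintro ⟨h1, h2, h3, h4⟩
    exact ⟨⟨h1, h2⟩, h3, h4⟩

end fin

theorem wth (ssl : SslStmt) (nsv : NsvStmt) : WthStmt := by
  intro ℓ _ M _ hM hℓ V₀ G _ _ _ _ E₀ hFr B hSy n m hPE c d L hL1 hL2
  classical
  have iG := Fintype.ofFinite G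
  have iV := Fintype.ofFinite V₀
  have iA := Fintype.ofFinite (MulAut V₀)
  have iL := Fintype.ofFinite (lin V₀)
  obtain ⟨b1, v1, z1, -⟩ := nsv ℓ M hM hℓ V₀ G E₀ hFr B hSy (pL L) hL1
  obtain ⟨b2, v2, z2, -⟩ := nsv ℓ M hM hℓ V₀ G E₀ hFr B hSy (qL L) hL2
  have hℓ0 : (ℓ : ℂ) ≠ 0 := by exact_mod_cast (Fact.out : ℓ.Prime).ne_zero
  have hc1 : (Nat.card (B.C (pL L)) : ℂ) ≠ 0 := by exact_mod_cast Nat.card_pos.ne'
  have hc2 : (Nat.card (B.C (qL L)) : ℂ) ≠ 0 := by exact_mod_cast Nat.card_pos.ne'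
  have hS : ∀ W : Subgroup V₀, W ≠ ⊥ → ((B.S W : ℤ) : ℂ) * (B.S W : ℤ) = 1 := by
    intro W hW
    rcases hSy.sg W hW with h | h <;> rw [h] <;> norm_num
  rw [w13_SL B m c d L (fun χ h h' h'' => z1 χ h h' h'' c) (fun χ h h' h'' => z2 χ h h' h'' d)]
  have key : ∀ χ ∈ (ch_finite B (pL L)).toFinset, ∀ χ' ∈ (ch_finite B (qL L)).toFinset,
      cv (fc B (pL L) c) χ * cv (fc B (qL L) d) χ' *
        (SL B m (Lm L) χ χ' * starRingEnd ℂ (SL B m (Lp L) χ χ')) =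
      (((ux B.U (pL L) c : ℚ) : ℂ) * ((ux B.U (qL L) d : ℚ) : ℂ) *
        ((Nat.card (B.C (pL L)) : ℂ) * Nat.card (B.C (qL L)) / ℓ ^ 2) ^ 2) *
      (lam B (pL L) χ c * lam B (qL L) χ' d *
        ((∑ᶠ w ∈ TT E₀ (Lm L), lam B (pL L) χ w.2 *
            starRingEnd ℂ (lam B (qL L) χ' (w.1 w.2))) *
          starRingEnd ℂ (∑ᶠ w ∈ TT E₀ (Lp L), lam B (pL L) χ w.2 *
            starRingEnd ℂ (lam B (qL L) χ' (w.1 w.2))))) := by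
    intro χ hχ χ' hχ'
    rw [Set.Finite.mem_toFinset] at hχ hχ'
    have s1 := ssl ℓ M hM hℓ V₀ G E₀ hFr B hSy n m hPE (Lm L) (by rw [p1_Lm]; exact hL1)
      (by rw [p2_Lm]; exact hL2) χ (by rw [p1_Lm]; exact hχ) χ' (by rw [p2_Lm]; exact hχ')
    have s2 := ssl ℓ M hM hℓ V₀ G E₀ hFr B hSy n m hPE (Lp L) (by rw [p1_Lp]; exact hL1)
      (by rw [p2_Lp]; exact hL2) χ (by rw [p1_Lp]; exact hχ) χ' (by rw [p2_Lp]; exact hχ')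
    rw [p1_Lm, p2_Lm] at s1
    rw [p1_Lp, p2_Lp] at s2
    have t1 := hS _ hL1
    have t2 := hS _ hL2
    change SL B m (Lm L) χ χ' = (Nat.card (B.C (pL L)) : ℂ) * Nat.card (B.C (qL L)) / ℓ ^ 2 *
      (B.S (pL L) * B.S (qL L)) * ∑ᶠ w ∈ TT E₀ (Lm L), lam B (pL L) χ w.2 *
        starRingEnd ℂ (lam B (qL L) χ' (w.1 w.2)) at s1
    change SL B m (Lp L) χ χ' = (Nat.card (B.C (pL L)) : ℂ) * Nat.card (B.C (qL L)) / ℓ ^ 2 *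
      (B.S (pL L) * B.S (qL L)) * ∑ᶠ w ∈ TT E₀ (Lp L), lam B (pL L) χ w.2 *
        starRingEnd ℂ (lam B (qL L) χ' (w.1 w.2)) at s2
    rw [s1, s2, v1 χ hχ, v2 χ' hχ']
    generalize (∑ᶠ w ∈ TT E₀ (Lm L), lam B (pL L) χ w.2 *
      starRingEnd ℂ (lam B (qL L) χ' (w.1 w.2))) = P
    generalize (∑ᶠ w ∈ TT E₀ (Lp L), lam B (pL L) χ w.2 *
      starRingEnd ℂ (lam B (qL L) χ' (w.1 w.2))) = R
    have hK : starRingEnd ℂ ((Nat.card (B.C (pL L)) : ℂ) * Nat.card (B.C (qL L)) / ℓ ^ 2 *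
        (B.S (pL L) * B.S (qL L)) * R) = (Nat.card (B.C (pL L)) : ℂ) * Nat.card (B.C (qL L)) /
        ℓ ^ 2 * (B.S (pL L) * B.S (qL L)) * starRingEnd ℂ R := by
      simp only [map_mul, map_div₀, map_pow, map_natCast, map_intCast]
    rw [hK]
    generalize starRingEnd ℂ R = Q
    generalize ((B.S (pL L) : ℤ) : ℂ) = S₁ at t1 ⊢
    generalize ((B.S (qL L) : ℤ) : ℂ) = S₂ at t2 ⊢
    generalize (Nat.card (B.C (pL L)) : ℂ) = N₁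
    generalize (Nat.card (B.C (qL L)) : ℂ) = N₂
    generalize ((ux B.U (pL L) c : ℚ) : ℂ) = x₁
    generalize ((ux B.U (qL L) d : ℚ) : ℂ) = x₂
    have t3 : (S₁ * S₂) * (S₁ * S₂) = 1 := by
      calc (S₁ * S₂) * (S₁ * S₂) = (S₁ * S₁) * (S₂ * S₂) := by ring
        _ = 1 := by rw [t1, t2, one_mul]
    calc _ = ((S₁ * S₂) * (S₁ * S₂)) * (x₁ * x₂ * (N₁ * N₂ / ℓ ^ 2) ^ 2 *
          (lam B (pL L) χ c * lam B (qL L) χ' d * (P * Q))) := by ring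
      _ = _ := by rw [t3, one_mul]
  rw [Finset.sum_congr rfl fun χ hχ => Finset.sum_congr rfl fun χ' hχ' => key χ hχ χ' hχ']
  simp only [← Finset.mul_sum]
  have h5 : ∑ χ ∈ (ch_finite B (pL L)).toFinset, ∑ χ' ∈ (ch_finite B (qL L)).toFinset,
      (lam B (pL L) χ c * lam B (qL L) χ' d *
        ((∑ᶠ w ∈ TT E₀ (Lm L), lam B (pL L) χ w.2 *
            starRingEnd ℂ (lam B (qL L) χ' (w.1 w.2))) *
          starRingEnd ℂ (∑ᶠ w ∈ TT E₀ (Lp L), lam B (pL L) χ w.2 *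
            starRingEnd ℂ (lam B (qL L) χ' (w.1 w.2))))) =
      (Nat.card V₀ : ℂ) ^ 2 * N13 E₀ c d L := by
    rw [← lin_double E₀ c d L]
    rw [← sum_lam B (pL L) b1 (fun f => ∑ f' : lin V₀, f c * f'.1 d *
      ((∑ᶠ w ∈ TT E₀ (Lm L), f w.2 * starRingEnd ℂ (f'.1 (w.1 w.2))) *
        starRingEnd ℂ (∑ᶠ w ∈ TT E₀ (Lp L), f w.2 * starRingEnd ℂ (f'.1 (w.1 w.2)))))]
    refine Finset.sum_congr rfl fun χ _ => ?_
    exact sum_lam B (qL L) b2 (fun f' => lam B (pL L) χ c * f' d *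
      ((∑ᶠ w ∈ TT E₀ (Lm L), lam B (pL L) χ w.2 * starRingEnd ℂ (f' (w.1 w.2))) *
        starRingEnd ℂ (∑ᶠ w ∈ TT E₀ (Lp L), lam B (pL L) χ w.2 *
          starRingEnd ℂ (f' (w.1 w.2)))))
  rw [h5, hFr.cd]
  unfold P13
  push_cast
  field_simp

end Pool.Agent.PP.SO.H79
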