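import Pool.Agent.Helper79_ASO.WTHC
import Pool.Agent.Helper94_PP.LemQ

/-!
# Squad ASO, row WTH, part D: characters of the local blocks
-/

open scoped BigOperators

set_option autoImplicit false
set_option linter.unusedSectionVars false

noncomputable section

namespace Pool.Agent.PP.SO.H79

open Pool.Agent.Helper51_AWC Pool.Agent.Helper79_WRA Pool.Agent.PP Pool.Agent.PP.KF
open Pool.Agent.PP.K9 Pool.Agent.PP.K9.H97 Pool.Agent.PP.H75 Pool.Agent.PP.T3

attribute [local instance] Ideal.Quotient.field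

section ch

variable {V₀ G : Type} [CommGroup V₀] [Group G] [Fintype G] {M : Ideal (integralClosure ℤ ℂ)}
  [M.IsMaximal]

theorem ch_star {C : Subgroup G} {χ : G → ℂ} (hs : ∀ g, g ∉ C → χ g = 0)
    (hi : (fun t : C => χ t) ∈ Irr C) (g : G) : starRingEnd ℂ (χ g) = χ g⁻¹ := by
  by_cases hg : g ∈ C
  · exact H94.irr_star hi (⟨g, hg⟩ : C)
  · rw [hs g hg, hs g⁻¹ (fun h => hg ((C.inv_mem_iff).1 h)), map_zero]

theorem SL_eq (B : Bk (FF M) V₀ G) (m : ℕ) (L' : Set (V₀ × V₀ × ℤ)) (χ χ' : G → ℂ)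
    (hs : ∀ g, g ∉ B.C (p1 L') → χ g = 0) : SL B m L' χ χ' =
      ∑ v : G × G, χ v.1 * χ' (v.2⁻¹ * v.1⁻¹ * v.2) * ind B m L' v.1 v.2 := by
  classical
  unfold SL
  rw [finsum_mem_def, finsum_eq_sum_of_fintype]
  refine Finset.sum_congr rfl fun v _ => ?_
  by_cases h : v.1 ∈ B.C (p1 L')
  · by_cases h1 : PL B.i m L' v.1 v.2
    · rw [Set.indicator_of_mem h1, ind, if_pos ⟨h, h1⟩, mul_one]
    · rw [Set.indicator_of_notMem h1, ind, if_neg (fun h2 => h1 h2.2), mul_zero]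
  · rw [ind, if_neg (fun h2 => h h2.1), mul_zero]
    apply Set.indicator_apply_eq_zero.2
    intro _
    rw [hs _ h, zero_mul]

theorem SL_star (B : Bk (FF M) V₀ G) (m : ℕ) (L' : Set (V₀ × V₀ × ℤ)) (χ χ' : G → ℂ)
    (hs : ∀ g, g ∉ B.C (p1 L') → χ g = 0) (hst : ∀ g, starRingEnd ℂ (χ g) = χ g⁻¹)
    (hst' : ∀ g, starRingEnd ℂ (χ' g) = χ' g⁻¹) : starRingEnd ℂ (SL B m L' χ χ') =
      ∑ v : G × G, χ v.1⁻¹ * χ' (v.2⁻¹ * v.1 * v.2) * ind B m L' v.1 v.2 := by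
  rw [SL_eq B m L' χ χ' hs, map_sum]
  refine Finset.sum_congr rfl fun v _ => ?_
  rw [map_mul, map_mul, hst, hst', ind_star]
  have e : (v.2⁻¹ * v.1⁻¹ * v.2)⁻¹ = v.2⁻¹ * v.1 * v.2 := by group
  rw [e]

theorem ch_inj (B : Bk (FF M) V₀ G) (W : Subgroup V₀) {χ χ' : G → ℂ} (h : χ ∈ Ch B W)
    (h' : χ' ∈ Ch B W) (he : (fun t : B.C W => χ t) = fun t : B.C W => χ' t) : χ = χ' := by
  funext g
  by_cases hg : g ∈ B.C W
  · exact congrFun he ⟨g, hg⟩
  · rw [h.1 g hg, h'.1 g hg]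

theorem ch_finite (B : Bk (FF M) V₀ G) (W : Subgroup V₀) : (Ch B W).Finite := by
  have := Fintype.ofFinite (B.C W)
  refine Set.Finite.of_injOn (f := fun (χ : G → ℂ) (t : B.C W) => χ t) (t := Irr (B.C W)) ?_ ?_
    (irr_finite' (G := B.C W))
  · intro χ hχ
    exact hχ.2.1
  · intro χ hχ χ' hχ' he
    exact ch_inj B W hχ hχ' he

theorem fc_expand (B : Bk (FF M) V₀ G) (W : Subgroup V₀) (c : V₀)
    (h0 : ∀ χ : G → ℂ, (∀ x, x ∉ B.C W → χ x = 0) → (fun t : B.C W => χ t) ∈ Irr (B.C W) →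
      χ ∉ Ch B W → cv (fc B W c) χ = 0) (g : G) :
    fc B W c g = ∑ χ ∈ (ch_finite B W).toFinset,
      cv (fc B W c) χ * (χ 1 / Nat.card (B.C W)) * χ g⁻¹ := by
  classical
  have := Fintype.ofFinite (B.C W)
  by_cases hg : g ∈ B.C W
  · have hinj : Set.InjOn (fun (χ : G → ℂ) (t : B.C W) => χ t)
        ((ch_finite B W).toFinset : Set (G → ℂ)) := by
      intro χ hχ χ' hχ' he
      rw [Set.Finite.coe_toFinset] at hχ hχ'
      exact ch_inj B W hχ hχ' he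
    have h1 := cf_expand (H := B.C W) (fun t : B.C W => fc B W c t)
      (fun g h => H3.fc_cl B W c h g)
      ((ch_finite B W).toFinset.image (fun (χ : G → ℂ) (t : B.C W) => χ t)) ?_ ?_ ⟨g, hg⟩
    · rw [Finset.sum_image hinj] at h1
      refine h1.trans (Finset.sum_congr rfl fun χ hχ => ?_)
      rw [Set.Finite.mem_toFinset] at hχ
      rw [H3.cv_eq]
      unfold H50.om
      have hne : χ 1 ≠ 0 := one_sub _ hχ.2.1
      rw [Nat.card_eq_fintype_card]
      have e1 : (fun t : B.C W => χ t) 1 = χ 1 := rfl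
      rw [e1]
      have e2 : (∑ t : B.C W, fc B W c t * χ t) / χ 1 * (χ 1 / (Fintype.card (B.C W) : ℂ)) =
          (Fintype.card (B.C W) : ℂ)⁻¹ * ∑ t : B.C W, fc B W c t * χ t := by
        field_simp
      rw [e2]
      rfl
    · intro χ hχ
      obtain ⟨χ₀, h, rfl⟩ := Finset.mem_image.1 hχ
      rw [Set.Finite.mem_toFinset] at h
      exact h.2.1
    · intro χ hχ hn
      have hr : (fun t : B.C W => H75.ext0 (B.C W) χ t) = χ := funext (H75.ext0_apply _ _)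
      have h2 : H75.ext0 (B.C W) χ ∉ Ch B W := by
        intro h
        apply hn
        rw [Finset.mem_image]
        exact ⟨_, (Set.Finite.mem_toFinset _).2 h, hr⟩
      have h3 := h0 (H75.ext0 (B.C W) χ) (H75.ext0_supp _ _) (by rw [hr]; exact hχ) h2
      rw [H3.cv_eq, hr] at h3
      unfold H50.om at h3
      rw [div_eq_zero_iff] at h3
      rcases h3 with h3 | h3
      · exact h3
      · exact absurd h3 (irr_one_ne hχ)
  · rw [H3.fc_supp B W c g hg, Finset.sum_eq_zero]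
    intro χ hχ
    rw [Set.Finite.mem_toFinset] at hχ
    rw [hχ.1 g⁻¹ (fun h => hg ((B.C W).inv_mem_iff.1 h)), mul_zero]

theorem sum_lam [Finite V₀] [Fintype (lin V₀)] (B : Bk (FF M) V₀ G) (W : Subgroup V₀)
    (h : Set.BijOn (lam B W) (Ch B W) (lin V₀)) (F : (V₀ → ℂ) → ℂ) :
    ∑ χ ∈ (ch_finite B W).toFinset, F (lam B W χ) = ∑ f : lin V₀, F f.1 := by
  refine Finset.sum_bij (fun χ hχ => ⟨lam B W χ, h.mapsTo ((Set.Finite.mem_toFinset _).1 hχ)⟩)
    (fun _ _ => Finset.mem_univ _) ?_ ?_ (fun _ _ => rfl)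
  · intro χ hχ χ' hχ' he
    exact h.injOn ((Set.Finite.mem_toFinset _).1 hχ) ((Set.Finite.mem_toFinset _).1 hχ')
      (congrArg Subtype.val he)
  · intro f _
    obtain ⟨χ, hχ, he⟩ := h.surjOn f.2
    exact ⟨χ, (Set.Finite.mem_toFinset _).2 hχ, Subtype.ext he⟩

end ch

end Pool.Agent.PP.SO.H79
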