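import Pool.Agent.ASO.Stmts4
import Pool.Agent.Helper3_ASO.MUL

/-!
# Squad ASO, row WTH, part A: tools
-/

open scoped BigOperators

set_option autoImplicit false
set_option linter.unusedSectionVars false

noncomputable section

namespace Pool.Agent.PP.SO.H79

open Pool.Agent.Helper51_AWC Pool.Agent.Helper79_WRA Pool.Agent.PP Pool.Agent.PP.KF
open Pool.Agent.PP.K9 Pool.Agent.PP.K9.H97 Pool.Agent.PP.H75 Pool.Agent.PP.T3

attribute [local instance] Ideal.Quotient.field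

/-! ### Characters -/

section chars

variable {H : Type} [Group H] [Fintype H]

/-- expansion of a class function -/
theorem cf_expand (f : H → ℂ) (hf : ∀ g h, f (h * g * h⁻¹) = f g) (S : Finset (H → ℂ))
    (hS : ∀ χ ∈ S, χ ∈ Irr H) (h0 : ∀ χ ∈ Irr H, χ ∉ S → ∑ g, f g * χ g = 0) (g : H) :
    f g = ∑ χ ∈ S, ((Fintype.card H : ℂ)⁻¹ * ∑ t, f t * χ t) * χ g⁻¹ := by
  classical
  have hc : (Fintype.card H : ℂ) ≠ 0 := by exact_mod_cast Fintype.card_ne_zero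
  have h1 : (f - fun g => ∑ χ ∈ S, ((Fintype.card H : ℂ)⁻¹ * ∑ t, f t * χ t) * χ g⁻¹) = 0 := by
    apply irr_complete
    · intro g h
      rw [Pi.sub_apply, Pi.sub_apply, hf]
      congr 1
      refine Finset.sum_congr rfl fun χ hχ => ?_
      have e : (h * g * h⁻¹)⁻¹ = h * g⁻¹ * h⁻¹ := by group
      rw [e, irr_conj (hS χ hχ)]
    · intro ψ hψ
      simp only [Pi.sub_apply, sub_mul, Finset.sum_sub_distrib]
      have h2 : ∑ x : H, (∑ χ ∈ S, ((Fintype.card H : ℂ)⁻¹ * ∑ t, f t * χ t) * χ x⁻¹) * ψ x =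
          ∑ χ ∈ S, ((Fintype.card H : ℂ)⁻¹ * ∑ t, f t * χ t) * ∑ x, ψ x * χ x⁻¹ := by
        simp only [Finset.sum_mul, Finset.mul_sum]
        rw [Finset.sum_comm]
        refine Finset.sum_congr rfl fun χ _ => Finset.sum_congr rfl fun x _ => ?_
        refine Finset.sum_congr rfl fun t _ => ?_
        ring
      rw [h2]
      by_cases hψS : ψ ∈ S
      · rw [Finset.sum_eq_single_of_mem ψ hψS, irr_orth_self hψ]
        · field_simp
          ring
        · intro χ hχ hne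
          rw [irr_orth_ne hψ (hS χ hχ) (Ne.symm hne), mul_zero]
      · rw [h0 ψ hψ hψS, Finset.sum_eq_zero, sub_zero]
        intro χ hχ
        rw [irr_orth_ne hψ (hS χ hχ) (fun h => hψS (h ▸ hχ)), mul_zero]
  have h2 := congrFun h1 g
  rw [Pi.sub_apply, Pi.zero_apply] at h2
  exact sub_eq_zero.1 h2

/-- the sum over the conjugates -/
theorem conj_sum {χ : H → ℂ} (hχ : χ ∈ Irr H) (a b : H) :
    ∑ z : H, χ (z⁻¹ * a * z * b) = Fintype.card H * (χ a * χ b / χ 1) := by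
  have hne := irr_one_ne hχ
  have hcj : ∀ z, χ (z⁻¹ * a * z) = χ a := by
    intro z
    have := irr_conj hχ a z⁻¹
    rwa [inv_inv] at this
  obtain ⟨n, ρ, hρ, rfl⟩ := hχ
  obtain ⟨c, hc⟩ := schur_scalar ρ (∑ z : H, ρ (z⁻¹ * a * z)) (by
    intro g
    have key : (∑ z : H, ρ (z⁻¹ * a * z)) * ρ g = ρ g * ∑ z : H, ρ (z⁻¹ * a * z) := by
      rw [Finset.sum_mul, Finset.mul_sum, ← Equiv.sum_comp (Equiv.mulRight g⁻¹)]
      refine Finset.sum_congr rfl fun z _ => ?_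
      rw [← map_mul, ← map_mul]
      congr 1
      simp only [Equiv.coe_mulRight]
      group
    exact key)
  have h1 : ∑ z : H, ρ.character (z⁻¹ * a * z * b) = c * ρ.character b := by
    have h2 : ∑ z : H, ρ.character (z⁻¹ * a * z * b) =
        LinearMap.trace ℂ _ ((∑ z : H, ρ (z⁻¹ * a * z)) * ρ b) := by
      rw [Finset.sum_mul, map_sum]
      refine Finset.sum_congr rfl fun z _ => ?_
      rw [← map_mul]
      rfl
    rw [h2, hc, smul_mul_assoc, map_smul, smul_eq_mul]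
    rfl
  have h3 : (Fintype.card H : ℂ) * ρ.character a = c * ρ.character 1 := by
    have h4 := congrArg (LinearMap.trace ℂ _) hc
    rw [map_sum, map_smul, smul_eq_mul] at h4
    have h5 : ∑ z : H, LinearMap.trace ℂ (Fin n → ℂ) (ρ (z⁻¹ * a * z)) =
        ∑ z : H, ρ.character a := Finset.sum_congr rfl fun z _ => hcj z
    rw [h5, Finset.sum_const, Finset.card_univ, nsmul_eq_mul] at h4
    rw [h4]
    congr 1
    show LinearMap.trace ℂ _ _ = LinearMap.trace ℂ _ (ρ 1)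
    rw [map_one]
    rfl
  rw [h1]
  have h6 : c = (Fintype.card H : ℂ) * ρ.character a / ρ.character 1 := by
    rw [h3, mul_div_assoc, div_self hne, mul_one]
  rw [h6]
  field_simp

end chars

/-! ### Linear characters -/

section linear

variable {V₀ : Type} [CommGroup V₀] [Finite V₀]

/-- the linear characters as homomorphisms -/
theorem lin_pow {f : V₀ → ℂ} (hf : f ∈ lin V₀) (v : V₀) (n : ℕ) : f (v ^ n) = f v ^ n := by
  induction n with
  | zero => rw [pow_zero, pow_zero]; exact hf.1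
  | succ n ih => rw [pow_succ, pow_succ, hf.2, ih]

theorem lin_inv {f : V₀ → ℂ} (hf : f ∈ lin V₀) (v : V₀) : f v * f v⁻¹ = 1 := by
  rw [← hf.2, mul_inv_cancel, hf.1]

theorem lin_ne {f : V₀ → ℂ} (hf : f ∈ lin V₀) (v : V₀) : f v ≠ 0 := by
  intro h
  have := lin_inv hf v
  rw [h, zero_mul] at this
  exact zero_ne_one this

theorem lin_star {f : V₀ → ℂ} (hf : f ∈ lin V₀) (v : V₀) : starRingEnd ℂ (f v) = f v⁻¹ := by
  have h1 : f v ^ Nat.card V₀ = 1 := by rw [← lin_pow hf, pow_card_eq_one', hf.1]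
  have h2 : ‖f v‖ = 1 := Complex.norm_eq_one_of_pow_eq_one h1 Nat.card_pos.ne'
  have h3 : f v * starRingEnd ℂ (f v) = 1 := by
    rw [Complex.mul_conj, Complex.normSq_eq_norm_sq, h2]
    norm_num
  have h4 := lin_inv hf v
  exact mul_left_cancel₀ (lin_ne hf v) (h3.trans h4.symm)

/-- the group of the linear characters -/
def linE : lin V₀ ≃ (V₀ →* ℂˣ) where
  toFun f := MonoidHom.toHomUnits
    { toFun := f.1
      map_one' := f.2.1
      map_mul' := f.2.2 }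
  invFun φ := ⟨fun v => (φ v : ℂ), by simp [lin]⟩
  left_inv f := by
    apply Subtype.ext
    funext v
    rfl
  right_inv φ := by
    ext v
    rfl

instance linFin : Finite (lin V₀) := Finite.of_equiv _ (linE (V₀ := V₀)).symm

open Classical in
/-- orthogonality -/
theorem lin_sum [Fintype (lin V₀)] (v : V₀) :
    ∑ f : lin V₀, f.1 v = if v = 1 then (Nat.card V₀ : ℂ) else 0 := by
  classical
  have hcard : Fintype.card (lin V₀) = Nat.card V₀ := by
    rw [← Nat.card_eq_fintype_card, Nat.card_congr (linE (V₀ := V₀))]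
    exact CommGroup.card_monoidHom_of_hasEnoughRootsOfUnity V₀ ℂ
  by_cases hv : v = 1
  · rw [if_pos hv, hv, Finset.sum_congr rfl fun f _ => f.2.1, Finset.sum_const, Finset.card_univ,
      hcard, nsmul_eq_mul, mul_one]
  · rw [if_neg hv]
    obtain ⟨φ, hφ⟩ := CommGroup.exists_apply_ne_one_of_hasEnoughRootsOfUnity V₀ ℂ hv
    obtain ⟨f₀, hf₀⟩ : ∃ f₀ : lin V₀, f₀.1 v ≠ 1 := by
      refine ⟨linE.symm φ, ?_⟩
      intro h
      apply hφ
      ext
      exact h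
    have hmem : ∀ f : lin V₀, (fun v => f₀.1 v * f.1 v) ∈ lin V₀ := by
      intro f
      refine ⟨?_, fun v w => ?_⟩
      · show f₀.1 1 * f.1 1 = 1
        rw [f₀.2.1, f.2.1, one_mul]
      · show f₀.1 (v * w) * f.1 (v * w) = f₀.1 v * f.1 v * (f₀.1 w * f.1 w)
        rw [f₀.2.2, f.2.2]
        ring
    have hbij : Function.Bijective (fun f : lin V₀ => (⟨_, hmem f⟩ : lin V₀)) := by
      rw [← Finite.injective_iff_bijective]
      intro f f' h
      apply Subtype.ext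
      funext v
      have := congrFun (congrArg Subtype.val h) v
      exact mul_left_cancel₀ (lin_ne f₀.2 v) this
    have h1 := hbij.sum_comp (fun f : lin V₀ => f.1 v)
    simp only [← Finset.mul_sum] at h1
    have h2 : (f₀.1 v - 1) * ∑ f : lin V₀, f.1 v = 0 := by
      rw [sub_mul, h1, one_mul, sub_self]
    rcases mul_eq_zero.1 h2 with h | h
    · exact absurd (sub_eq_zero.1 h) hf₀
    · exact h

end linear

/-! ### Sums over quadruples -/

section sums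

variable {G : Type} [Group G]

/-- `x ↦ z⁻¹ x z'` -/
def cE (z z' : G) : G ≃ G := (Equiv.mulLeft z⁻¹).trans (Equiv.mulRight z')

theorem cE_apply (z z' x : G) : cE z z' x = z⁻¹ * x * z' := rfl

/-- conjugation of the quadruples `(x, X, u, w)` -/
def E4 (z z' : G) : (G × G × G × G) ≃ (G × G × G × G) :=
  Equiv.prodCongr (cE z z) (Equiv.prodCongr (cE z z) (Equiv.prodCongr (cE z z') (cE z z')))

theorem E4_apply (z z' x X u w : G) : E4 z z' (x, X, u, w) =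
    (z⁻¹ * x * z, z⁻¹ * X * z, z⁻¹ * u * z', z⁻¹ * w * z') := rfl

/-- conjugation of the pairs `(X, u)` -/
def E2 (z z' : G) : (G × G) ≃ (G × G) := Equiv.prodCongr (cE z z) (cE z z')

theorem E2_apply (z z' X u : G) : E2 z z' (X, u) = (z⁻¹ * X * z, z⁻¹ * u * z') := rfl

/-- the substitution `(x, X, u, w) ↦ (s, x, y, u)` -/
def R4 (c : G) : (G × G × G × G) ≃ (G × G × G × G) where
  toFun a := (c⁻¹ * (a.1 * a.2.1⁻¹), a.1, a.2.2.1 * a.2.2.2⁻¹, a.2.2.1)
  invFun a := (a.2.1, (c * a.1)⁻¹ * a.2.1, a.2.2.2, a.2.2.1⁻¹ * a.2.2.2)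
  left_inv a := by
    refine Prod.ext rfl (Prod.ext ?_ (Prod.ext rfl ?_))
    · show (c * (c⁻¹ * (a.1 * a.2.1⁻¹)))⁻¹ * a.1 = a.2.1
      group
    · show (a.2.2.1 * a.2.2.2⁻¹)⁻¹ * a.2.2.1 = a.2.2.2
      group
  right_inv a := by
    refine Prod.ext ?_ (Prod.ext rfl (Prod.ext ?_ rfl))
    · show c⁻¹ * (a.2.1 * ((c * a.1)⁻¹ * a.2.1)⁻¹) = a.1
      group
    · show a.2.2.2 * (a.2.2.1⁻¹ * a.2.2.2)⁻¹ = a.2.2.1
      group

variable [Fintype G]

open Classical in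
theorem xx_count (g h : G) (p : G → G → G → Prop) :
    (({z : XX g h | p z.1.1 z.1.2.1 z.1.2.2} : Set (XX g h)).ncard : ℂ) =
      ∑ v : G × G × G, if v.1 * v.2.1 * v.1⁻¹ * v.2.1⁻¹ = g * (v.2.2 * h * v.2.2⁻¹) ∧
        p v.1 v.2.1 v.2.2 then (1 : ℂ) else 0 := by
  have h1 : ({z : XX g h | p z.1.1 z.1.2.1 z.1.2.2} : Set (XX g h)).ncard =
      (Finset.univ.filter fun v : G × G × G =>
        v.1 * v.2.1 * v.1⁻¹ * v.2.1⁻¹ = g * (v.2.2 * h * v.2.2⁻¹) ∧ p v.1 v.2.1 v.2.2).card := by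
    have hinj : Function.Injective (fun z : XX g h => (z.1 : G × G × G)) := fun a b h =>
      Subtype.ext h
    refine (Set.ncard_image_of_injective _ hinj).symm.trans ?_
    rw [← Set.ncard_coe_finset]
    congr 1
    ext v
    simp only [Finset.coe_filter, Finset.mem_univ, true_and]
    constructor
    · rintro ⟨z, hz, rfl⟩
      exact ⟨z.2, hz⟩
    · rintro ⟨h1, h2⟩
      exact ⟨⟨v, h1⟩, h2, rfl⟩
  rw [h1, Finset.sum_boole]

open Classical in
/-- the sum over the solutions of the equation as a sum over quadruples -/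
theorem reparam (b₁ b₂ : G → ℂ) (c d : G) (p : G → G → G → G → Prop) :
    ∑ w : G × G, b₁ w.1 * b₂ w.2 *
      (({z : XX (c * w.1) (d * w.2) | p (c * w.1) z.1.1 z.1.2.1 z.1.2.2} :
        Set (XX (c * w.1) (d * w.2))).ncard : ℂ) =
    ∑ a : G × G × G × G, b₁ (c⁻¹ * (a.1 * a.2.1⁻¹)) *
      b₂ (d⁻¹ * ((a.2.2.1⁻¹ * a.2.1 * a.2.2.1) * (a.2.2.2⁻¹ * a.1⁻¹ * a.2.2.2))) *
      if p (a.1 * a.2.1⁻¹) a.1 (a.2.2.1 * a.2.2.2⁻¹) a.2.2.1 then 1 else 0 := by
  have h1 : ∀ (s : G) (v : G × G × G), ∑ t : G, b₁ s * b₂ t *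
      (if v.1 * v.2.1 * v.1⁻¹ * v.2.1⁻¹ = c * s * (v.2.2 * (d * t) * v.2.2⁻¹) ∧
        p (c * s) v.1 v.2.1 v.2.2 then (1 : ℂ) else 0) =
      b₁ s * b₂ (d⁻¹ * (v.2.2⁻¹ * (c * s)⁻¹ * (v.1 * v.2.1 * v.1⁻¹ * v.2.1⁻¹) * v.2.2)) *
        (if p (c * s) v.1 v.2.1 v.2.2 then (1 : ℂ) else 0) := by
    intro s v
    rw [Finset.sum_eq_single_of_mem
      (d⁻¹ * (v.2.2⁻¹ * (c * s)⁻¹ * (v.1 * v.2.1 * v.1⁻¹ * v.2.1⁻¹) * v.2.2)) (Finset.mem_univ _)]
    · have h2 : v.1 * v.2.1 * v.1⁻¹ * v.2.1⁻¹ = c * s * (v.2.2 * (d *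
          (d⁻¹ * (v.2.2⁻¹ * (c * s)⁻¹ * (v.1 * v.2.1 * v.1⁻¹ * v.2.1⁻¹) * v.2.2))) * v.2.2⁻¹) := by
        group
      by_cases h3 : p (c * s) v.1 v.2.1 v.2.2
      · rw [if_pos ⟨h2, h3⟩, if_pos h3]
      · rw [if_neg (fun h => h3 h.2), if_neg h3]
    · intro t _ hne
      rw [if_neg, mul_zero]
      rintro ⟨h2, -⟩
      apply hne
      rw [h2]
      group
  calc _ = ∑ s : G, ∑ t : G, ∑ v : G × G × G, b₁ s * b₂ t *
        (if v.1 * v.2.1 * v.1⁻¹ * v.2.1⁻¹ = c * s * (v.2.2 * (d * t) * v.2.2⁻¹) ∧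
          p (c * s) v.1 v.2.1 v.2.2 then (1 : ℂ) else 0) := by
        rw [Fintype.sum_prod_type]
        refine Finset.sum_congr rfl fun s _ => Finset.sum_congr rfl fun t _ => ?_
        rw [xx_count, Finset.mul_sum]
    _ = ∑ s : G, ∑ v : G × G × G,
        b₁ s * b₂ (d⁻¹ * (v.2.2⁻¹ * (c * s)⁻¹ * (v.1 * v.2.1 * v.1⁻¹ * v.2.1⁻¹) * v.2.2)) *
        (if p (c * s) v.1 v.2.1 v.2.2 then (1 : ℂ) else 0) := by
        refine Finset.sum_congr rfl fun s _ => ?_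
        rw [Finset.sum_comm]
        exact Finset.sum_congr rfl fun v _ => h1 s v
    _ = ∑ a : G × G × G × G, b₁ a.1 * b₂ (d⁻¹ * (a.2.2.2⁻¹ * (c * a.1)⁻¹ *
          (a.2.1 * a.2.2.1 * a.2.1⁻¹ * a.2.2.1⁻¹) * a.2.2.2)) *
        (if p (c * a.1) a.2.1 a.2.2.1 a.2.2.2 then (1 : ℂ) else 0) := by
        rw [Fintype.sum_prod_type]
    _ = _ := by
        rw [← Equiv.sum_comp (R4 c)]
        refine Finset.sum_congr rfl fun a _ => ?_
        have e1 : (R4 c a).1 = c⁻¹ * (a.1 * a.2.1⁻¹) := rfl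
        have e2 : (R4 c a).2.1 = a.1 := rfl
        have e3 : (R4 c a).2.2.1 = a.2.2.1 * a.2.2.2⁻¹ := rfl
        have e4 : (R4 c a).2.2.2 = a.2.2.1 := rfl
        rw [e1, e2, e3, e4, mul_inv_cancel_left]
        have e5 : a.2.2.1⁻¹ * (a.1 * a.2.1⁻¹)⁻¹ *
            (a.1 * (a.2.2.1 * a.2.2.2⁻¹) * a.1⁻¹ * (a.2.2.1 * a.2.2.2⁻¹)⁻¹) * a.2.2.1 =
            (a.2.2.1⁻¹ * a.2.1 * a.2.2.1) * (a.2.2.2⁻¹ * a.1⁻¹ * a.2.2.2) := by
          group
        rw [e5]

end sums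

end Pool.Agent.PP.SO.H79
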