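import Pool.Agent.ASO.Stmts3
import Pool.Agent.ASO.StmtsH

/-!
# Squad ASO, row DGV: the `ℓ`-parts of the degrees
-/

open scoped BigOperators

set_option autoImplicit false

noncomputable section

namespace Pool.Agent.PP.SO.H79

open Pool.Agent.Helper51_AWC Pool.Agent.Helper79_WRA Pool.Agent.PP Pool.Agent.PP.KF
open Pool.Agent.PP.K9 Pool.Agent.PP.K9.H97 Pool.Agent.PP.H75 Pool.Agent.PP.T3

attribute [local instance] Ideal.Quotient.field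

/-- natural numbers prime to `ℓ` are units of the local ring -/
theorem inv_mem {M : Ideal (integralClosure ℤ ℂ)} [M.IsMaximal] {ℓ : ℕ} (hℓ : ℓ.Prime)
    (hM : (ℓ : integralClosure ℤ ℂ) ∈ M) {n : ℕ} (hn : ¬ ℓ ∣ n) : ((n : ℂ))⁻¹ ∈ RM M := by
  have h1 : rr M ((n : ℤ) : ℂ) ≠ 0 := by
    intro h
    exact hn (by exact_mod_cast (dvd_of_rr hℓ hM).1 h)
  have h2 := (inv_RM (rr_int (M := M) (n : ℤ)).1 h1).1
  simpa using h2

/-- rational numbers with denominator prime to `ℓ` are in the local ring -/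
theorem rl_mem {M : Ideal (integralClosure ℤ ℂ)} [M.IsMaximal] {ℓ : ℕ} [Fact ℓ.Prime]
    (hM : (ℓ : integralClosure ℤ ℂ) ∈ M) {q : ℚ} (hq : q ∈ SOR.Rl ℓ) : (q : ℂ) ∈ RM M := by
  have h1 : ¬ ℓ ∣ q.den := hq
  rw [Rat.cast_def, div_eq_mul_inv]
  exact Subring.mul_mem _ (intCast_mem (RM M) _) (inv_mem Fact.out hM h1)

/-- `(1 + ℓ q)⁻¹` is in the local ring -/
theorem rl_inv {M : Ideal (integralClosure ℤ ℂ)} [M.IsMaximal] {ℓ : ℕ} [Fact ℓ.Prime]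
    (hM : (ℓ : integralClosure ℤ ℂ) ∈ M) {q : ℚ} (hq : q ∈ SOR.Rl ℓ) :
    (((1 + ℓ * q : ℚ) : ℂ))⁻¹ ∈ RM M := by
  have hℓ : ℓ.Prime := Fact.out
  have h1 : ¬ ℓ ∣ q.den := hq
  have hd : (q.den : ℂ) ≠ 0 := by exact_mod_cast q.den_nz
  have hn : ¬ (ℓ : ℤ) ∣ ((q.den : ℤ) + ℓ * q.num) := by
    intro h
    have h2 : (ℓ : ℤ) ∣ (q.den : ℤ) := (Int.dvd_add_left (Dvd.intro _ rfl)).1 h
    exact h1 (by exact_mod_cast h2)
  have h3 : (((1 + ℓ * q : ℚ) : ℂ))⁻¹ = (q.den : ℂ) * (((q.den : ℤ) + ℓ * q.num : ℤ) : ℂ)⁻¹ := by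
    have h4 : (((1 + ℓ * q : ℚ) : ℂ)) = (((q.den : ℤ) + ℓ * q.num : ℤ) : ℂ) * (q.den : ℂ)⁻¹ := by
      push_cast
      rw [show (q : ℂ) = (q.num : ℂ) / (q.den : ℂ) from Rat.cast_def q]
      field_simp
    rw [h4, mul_inv, inv_inv, mul_comm]
  rw [h3]
  refine Subring.mul_mem _ (natCast_mem (RM M) _) ?_
  have h5 : rr M (((q.den : ℤ) + ℓ * q.num : ℤ) : ℂ) ≠ 0 := by
    intro h
    exact hn ((dvd_of_rr hℓ hM).1 h)
  exact (inv_RM (rr_int (M := M) _).1 h5).1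

theorem top_ne {ℓ : ℕ} [Fact ℓ.Prime] {V₀ : Type} [CommGroup V₀] [Finite V₀]
    {E₀ : Subgroup (MulAut V₀)} (hF : Fr ℓ V₀ E₀) : (⊤ : Subgroup V₀) ≠ ⊥ := by
  intro h
  have hℓ : ℓ.Prime := Fact.out
  have h1 : Nat.card (⊤ : Subgroup V₀) = 1 := by rw [h]; simp
  rw [Subgroup.card_top, hF.cd] at h1
  have := hℓ.one_lt
  nlinarith

theorem C_top {F V₀ G : Type} [CommGroup V₀] [Group G] (B : Bk F V₀ G) :
    B.C ⊤ = Subgroup.centralizer (B.i.range : Set G) := by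
  unfold Bk.C
  rw [← MonoidHom.range_eq_map]

/-- the local block of the whole group is `g` -/
theorem b_top {ℓ : ℕ} {M : Ideal (integralClosure ℤ ℂ)} [M.IsMaximal] {V₀ G : Type}
    [CommGroup V₀] [Finite V₀] [Group G] [Finite G] {E₀ : Subgroup (MulAut V₀)}
    {B : Bk (FF M) V₀ G} (hB : Sb ℓ M E₀ B) : B.b ⊤ = B.g := by
  have h1 := hB.lb ⊤
  have hC : Subgroup.centralizer (((⊤ : Subgroup V₀).map B.i : Subgroup G) : Set G) =
      Subgroup.centralizer (B.i.range : Set G) := by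
    rw [← MonoidHom.range_eq_map]
  have h2 : Bx (Subgroup.centralizer (B.i.range : Set G)) (B.b ⊤) := by
    rw [← hC]
    exact h1.blk
  have h3 : br B.i.range (B.b ⊤) = B.b ⊤ := by
    funext x
    by_cases hx : x ∈ Subgroup.centralizer (B.i.range : Set G)
    · unfold br
      rw [if_pos hx]
    · rw [h2.supp x hx]
      unfold br
      rw [if_neg hx]
  rcases h2.dich hB.ld.gam with h | h
  · exact h
  · exfalso
    apply hB.ld.gam.ne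
    have h4 := h1.gam
    rw [h3, h] at h4
    exact h4.symm

theorem dgv (hta : HTaStmt) : DgvStmt := by
  intro ℓ _ M _ hM V₀ G _ _ _ _ E₀ hF B hB W hW
  have hℓ : ℓ.Prime := Fact.out
  have hsb := hB.toSb
  have hb := b_top hsb
  have hD := hB.dg ⊤ (top_ne hF)
  have hDW := hB.dg W hW
  rw [hb, C_top B] at hD
  obtain ⟨m, hm, hc⟩ := hta ℓ M hM G B.e B.i.range B.g hsb.ld (B.D ⊤) hD
  rw [← C_top B] at hc
  have hV : Nat.card B.i.range = ℓ ^ 2 := by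
    rw [← hF.cd]
    exact (Nat.card_congr (MonoidHom.ofInjective hsb.inj).toEquiv).symm
  rw [hV] at hc
  obtain ⟨q, hq, hU⟩ := hB.un W hW
  have hs := hB.sg W hW
  have hS2 : (B.S W : ℚ) * B.S W = 1 := by
    rcases hs with h | h <;> rw [h] <;> norm_num
  have hS3 : (B.S W : ℂ) * B.S W = 1 := by exact_mod_cast hS2
  have hℓ0 : (ℓ : ℂ) ≠ 0 := by exact_mod_cast hℓ.ne_zero
  have hm0 : (m : ℂ) ≠ 0 := by
    intro h
    have : m = 0 := by exact_mod_cast h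
    exact hm (this ▸ dvd_zero ℓ)
  have hD0 : (B.D ⊤ : ℂ) ≠ 0 := by exact_mod_cast hD.1.ne'
  have hDW0 : (B.D W : ℂ) ≠ 0 := by exact_mod_cast hDW.1.ne'
  have hcW : (Nat.card (B.C W) : ℂ) ≠ 0 := by exact_mod_cast Nat.card_pos.ne'
  have hcc : (Nat.card (B.C ⊤) : ℂ) = ℓ ^ 2 * B.D ⊤ * m := by exact_mod_cast hc
  have hUc : ((1 + ℓ * q : ℚ) : ℂ) =
      B.S W * Nat.card (B.C W) * B.D ⊤ / (Nat.card (B.C ⊤) * B.D W) := by
    rw [← hU]
    unfold Bk.U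
    push_cast
    rfl
  have hU0 : ((1 + ℓ * q : ℚ) : ℂ) = B.S W * (Nat.card (B.C W) / (ℓ ^ 2 * B.D W)) * (m : ℂ)⁻¹ := by
    rw [hUc, hcc]
    field_simp
  have hS0 : (B.S W : ℂ) ≠ 0 := by
    intro h
    rw [h] at hS3
    norm_num at hS3
  have e1 : (Nat.card (B.C W) / (ℓ ^ 2 * B.D W) : ℂ) = B.S W * ((1 + ℓ * q : ℚ) : ℂ) * m := by
    rw [hU0]
    have : (B.S W : ℂ) * (B.S W * (Nat.card (B.C W) / (ℓ ^ 2 * B.D W)) * (m : ℂ)⁻¹) * m =
        (B.S W * B.S W) * (Nat.card (B.C W) / (ℓ ^ 2 * B.D W)) * ((m : ℂ)⁻¹ * m) := by ring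
    rw [this, hS3, inv_mul_cancel₀ hm0, one_mul, mul_one]
  have e2 : ((ℓ ^ 2 * B.D W / Nat.card (B.C W) : ℂ)) =
      B.S W * (((1 + ℓ * q : ℚ) : ℂ))⁻¹ * (m : ℂ)⁻¹ := by
    have h1 : ((ℓ ^ 2 * B.D W / Nat.card (B.C W) : ℂ)) =
        (Nat.card (B.C W) / (ℓ ^ 2 * B.D W) : ℂ)⁻¹ := by rw [inv_div]
    have h2 : (B.S W : ℂ)⁻¹ = B.S W := by
      rw [inv_eq_iff_eq_inv]
      exact (inv_eq_of_mul_eq_one_left hS3).symm
    rw [h1, e1, mul_inv, mul_inv, h2]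
  refine ⟨?_, ?_⟩
  · rw [e2]
    exact Subring.mul_mem _ (Subring.mul_mem _ (intCast_mem (RM M) _) (rl_inv hM hq))
      (inv_mem hℓ hM hm)
  · rw [e1]
    refine Subring.mul_mem _ (Subring.mul_mem _ (intCast_mem (RM M) _) ?_)
      (natCast_mem (RM M) _)
    push_cast
    exact Subring.add_mem _ (Subring.one_mem _) (Subring.mul_mem _ (natCast_mem (RM M) _)
      (rl_mem hM hq))

end Pool.Agent.PP.SO.H79
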