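import Pool.Agent.Helper79_ASO.WTHA

/-!
# Squad ASO, row WTH, part B: means over the centralisers
-/

open scoped BigOperators

set_option autoImplicit false
set_option linter.unusedSectionVars false

noncomputable section

namespace Pool.Agent.PP.SO.H79

open Pool.Agent.Helper51_AWC Pool.Agent.Helper79_WRA Pool.Agent.PP Pool.Agent.PP.KF
open Pool.Agent.PP.K9 Pool.Agent.PP.K9.H97 Pool.Agent.PP.H75 Pool.Agent.PP.T3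

attribute [local instance] Ideal.Quotient.field

section avg

variable {G : Type} [Group G] [Fintype G] (C₁ C₂ : Subgroup G) [Fintype C₁] [Fintype C₂]

/-- invariance under `(z, z')` -/
def Inv2 (I : G → G → ℂ) : Prop :=
  ∀ z ∈ C₁, ∀ z' ∈ C₂, ∀ X u, I (z⁻¹ * X * z) (z⁻¹ * u * z') = I X u

theorem avg4 (b₁ b₂ : G → ℂ) (I J : G → G → ℂ) (hI : Inv2 C₁ C₂ I) (hJ : Inv2 C₁ C₂ J) :
    ((Fintype.card C₁ : ℂ) * Fintype.card C₂) * ∑ a : G × G × G × G, b₁ (a.1 * a.2.1⁻¹) *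
      b₂ ((a.2.2.1⁻¹ * a.2.1 * a.2.2.1) * (a.2.2.2⁻¹ * a.1⁻¹ * a.2.2.2)) *
      (I a.2.1 a.2.2.1 * J a.1 a.2.2.2) =
    ∑ a : G × G × G × G, (∑ z : C₁, b₁ ((z : G)⁻¹ * (a.1 * a.2.1⁻¹) * z)) *
      (∑ z : C₂, b₂ ((z : G)⁻¹ *
        ((a.2.2.1⁻¹ * a.2.1 * a.2.2.1) * (a.2.2.2⁻¹ * a.1⁻¹ * a.2.2.2)) * z)) *
      (I a.2.1 a.2.2.1 * J a.1 a.2.2.2) := by
  obtain ⟨F, hF⟩ : ∃ F : G × G × G × G → ℂ, F = fun a => b₁ (a.1 * a.2.1⁻¹) *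
      b₂ ((a.2.2.1⁻¹ * a.2.1 * a.2.2.1) * (a.2.2.2⁻¹ * a.1⁻¹ * a.2.2.2)) *
      (I a.2.1 a.2.2.1 * J a.1 a.2.2.2) := ⟨_, rfl⟩
  have h1 : ((Fintype.card C₁ : ℂ) * Fintype.card C₂) * ∑ a, F a =
      ∑ z : C₁, ∑ z' : C₂, ∑ a, F (E4 (z : G) (z' : G) a) := by
    have h2 : ∀ (z : C₁) (z' : C₂), ∑ a, F (E4 (z : G) (z' : G) a) = ∑ a, F a := fun z z' =>
      Equiv.sum_comp (E4 (z : G) (z' : G)) F
    rw [Finset.sum_congr rfl fun z _ => Finset.sum_congr rfl fun z' _ => h2 z z',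
      Finset.sum_const, Finset.sum_const, Finset.card_univ, Finset.card_univ, nsmul_eq_mul,
      nsmul_eq_mul, mul_assoc]
  have h3 : ∀ (z : C₁) (z' : C₂) (a : G × G × G × G), F (E4 (z : G) (z' : G) a) =
      b₁ ((z : G)⁻¹ * (a.1 * a.2.1⁻¹) * z) *
      b₂ ((z' : G)⁻¹ *
        ((a.2.2.1⁻¹ * a.2.1 * a.2.2.1) * (a.2.2.2⁻¹ * a.1⁻¹ * a.2.2.2)) * z') *
      (I a.2.1 a.2.2.1 * J a.1 a.2.2.2) := by
    rintro z z' ⟨x, X, u, w⟩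
    rw [E4_apply, hF]
    simp only
    rw [hI z z.2 z' z'.2, hJ z z.2 z' z'.2]
    have e1 : (z : G)⁻¹ * x * z * ((z : G)⁻¹ * X * z)⁻¹ = (z : G)⁻¹ * (x * X⁻¹) * z := by group
    have e2 : ((z : G)⁻¹ * u * (z' : G))⁻¹ * ((z : G)⁻¹ * X * z) * ((z : G)⁻¹ * u * (z' : G)) *
        (((z : G)⁻¹ * w * (z' : G))⁻¹ * ((z : G)⁻¹ * x * z)⁻¹ * ((z : G)⁻¹ * w * (z' : G))) =
        (z' : G)⁻¹ * ((u⁻¹ * X * u) * (w⁻¹ * x⁻¹ * w)) * z' := by group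
    rw [e1, e2]
  have h4 : ∑ a, F a = ∑ a : G × G × G × G, b₁ (a.1 * a.2.1⁻¹) *
      b₂ ((a.2.2.1⁻¹ * a.2.1 * a.2.2.1) * (a.2.2.2⁻¹ * a.1⁻¹ * a.2.2.2)) *
      (I a.2.1 a.2.2.1 * J a.1 a.2.2.2) := by rw [hF]
  rw [← h4, h1]
  have h5 : ∑ z : C₁, ∑ z' : C₂, ∑ a, F (E4 (z : G) (z' : G) a) =
      ∑ a, ∑ z : C₁, ∑ z' : C₂, F (E4 (z : G) (z' : G) a) := by
    rw [Finset.sum_congr rfl fun z _ => Finset.sum_comm, Finset.sum_comm]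
  rw [h5]
  refine Finset.sum_congr rfl fun a _ => ?_
  rw [Finset.sum_mul_sum, Finset.sum_mul]
  refine Finset.sum_congr rfl fun z _ => ?_
  rw [Finset.sum_mul]
  exact Finset.sum_congr rfl fun z' _ => h3 z z' a

theorem conj_sub (C : Subgroup G) [Fintype C] {χ : G → ℂ} (hχ : (fun t : C => χ t) ∈ Irr C)
    {a b : G} (ha : a ∈ C) (hb : b ∈ C) :
    ∑ z : C, χ ((z : G)⁻¹ * a * z * b) = Fintype.card C * (χ a * χ b / χ 1) :=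
  conj_sum hχ (⟨a, ha⟩ : C) (⟨b, hb⟩ : C)

theorem comm_sub (C : Subgroup G) {χ : G → ℂ} (hχ : (fun t : C => χ t) ∈ Irr C)
    {a b : G} (ha : a ∈ C) (hb : b ∈ C) : χ (a * b) = χ (b * a) :=
  irr_mul_comm hχ (⟨b, hb⟩ : C) (⟨a, ha⟩ : C)

theorem one_sub (C : Subgroup G) {χ : G → ℂ} (hχ : (fun t : C => χ t) ∈ Irr C) : χ 1 ≠ 0 := by
  have h := irr_one_ne (G := C) hχ
  exact h

theorem avg2 {χ χ' : G → ℂ} (hχ : (fun t : C₁ => χ t) ∈ Irr C₁)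
    (hχ' : (fun t : C₂ => χ' t) ∈ Irr C₂) (I : G → G → ℂ) (hI : Inv2 C₁ C₂ I)
    (hs : ∀ X u, I X u ≠ 0 → X ∈ C₁ ∧ u⁻¹ * X⁻¹ * u ∈ C₂) {x h : G} (hx : x ∈ C₁) (hh : h ∈ C₂) :
    ∑ v : G × G, χ (v.1 * x) * χ' (h * (v.2⁻¹ * v.1⁻¹ * v.2)) * I v.1 v.2 =
      (χ 1 * χ' 1)⁻¹ * (χ x * χ' h) * ∑ v : G × G, χ v.1 * χ' (v.2⁻¹ * v.1⁻¹ * v.2) * I v.1 v.2 := by
  have hc1 : (Fintype.card C₁ : ℂ) ≠ 0 := by exact_mod_cast Fintype.card_ne_zero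
  have hc2 : (Fintype.card C₂ : ℂ) ≠ 0 := by exact_mod_cast Fintype.card_ne_zero
  obtain ⟨F, hF⟩ : ∃ F : G × G → ℂ, F = fun v =>
    χ (v.1 * x) * χ' (h * (v.2⁻¹ * v.1⁻¹ * v.2)) * I v.1 v.2 := ⟨_, rfl⟩
  have h1 : ((Fintype.card C₁ : ℂ) * Fintype.card C₂) * ∑ a, F a =
      ∑ a, ∑ z : C₁, ∑ z' : C₂, F (E2 (z : G) (z' : G) a) := by
    have h2 : ∀ (z : C₁) (z' : C₂), ∑ a, F (E2 (z : G) (z' : G) a) = ∑ a, F a := fun z z' =>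
      Equiv.sum_comp (E2 (z : G) (z' : G)) F
    have h5 : ∑ z : C₁, ∑ z' : C₂, ∑ a, F (E2 (z : G) (z' : G) a) =
        ∑ a, ∑ z : C₁, ∑ z' : C₂, F (E2 (z : G) (z' : G) a) := by
      rw [Finset.sum_congr rfl fun z _ => Finset.sum_comm, Finset.sum_comm]
    rw [← h5, Finset.sum_congr rfl fun z _ => Finset.sum_congr rfl fun z' _ => h2 z z',
      Finset.sum_const, Finset.sum_const, Finset.card_univ, Finset.card_univ, nsmul_eq_mul,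
      nsmul_eq_mul, mul_assoc]
  have h3 : ∀ v : G × G, ∑ z : C₁, ∑ z' : C₂, F (E2 (z : G) (z' : G) v) =
      ((Fintype.card C₁ : ℂ) * Fintype.card C₂) * ((χ 1 * χ' 1)⁻¹ * (χ x * χ' h) *
        (χ v.1 * χ' (v.2⁻¹ * v.1⁻¹ * v.2) * I v.1 v.2)) := by
    rintro ⟨X, u⟩
    have h6 : ∀ (z : C₁) (z' : C₂), F (E2 (z : G) (z' : G) (X, u)) =
        χ ((z : G)⁻¹ * X * z * x) * χ' (h * ((z' : G)⁻¹ * (u⁻¹ * X⁻¹ * u) * z')) * I X u := by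
      intro z z'
      rw [E2_apply, hF]
      simp only
      rw [hI z z.2 z' z'.2]
      have e2 : ((z : G)⁻¹ * u * (z' : G))⁻¹ * ((z : G)⁻¹ * X * z)⁻¹ * ((z : G)⁻¹ * u * (z' : G)) =
          (z' : G)⁻¹ * (u⁻¹ * X⁻¹ * u) * z' := by group
      rw [e2]
    rw [Finset.sum_congr rfl fun z _ => Finset.sum_congr rfl fun z' _ => h6 z z']
    by_cases h0 : I X u = 0
    · simp [h0]
    · obtain ⟨hX, hu⟩ := hs X u h0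
      have h7 : ∑ z : C₁, ∑ z' : C₂, χ ((z : G)⁻¹ * X * z * x) *
          χ' (h * ((z' : G)⁻¹ * (u⁻¹ * X⁻¹ * u) * z')) * I X u =
          (∑ z : C₁, χ ((z : G)⁻¹ * X * z * x)) *
          (∑ z' : C₂, χ' (h * ((z' : G)⁻¹ * (u⁻¹ * X⁻¹ * u) * z'))) * I X u := by
        rw [Finset.sum_mul_sum, Finset.sum_mul]
        refine Finset.sum_congr rfl fun z _ => ?_
        rw [Finset.sum_mul]
      have h8 : ∑ z' : C₂, χ' (h * ((z' : G)⁻¹ * (u⁻¹ * X⁻¹ * u) * z')) =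
          Fintype.card C₂ * (χ' (u⁻¹ * X⁻¹ * u) * χ' h / χ' 1) := by
        rw [← conj_sub C₂ hχ' hu hh]
        refine Finset.sum_congr rfl fun z' _ => ?_
        exact comm_sub C₂ hχ' hh (C₂.mul_mem (C₂.mul_mem (C₂.inv_mem z'.2) hu) z'.2)
      rw [h7, conj_sub C₁ hχ hX hx, h8]
      have n1 := one_sub C₁ hχ
      have n2 := one_sub C₂ hχ'
      field_simp
  rw [Finset.sum_congr rfl fun v _ => h3 v, ← Finset.mul_sum, ← Finset.mul_sum] at h1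
  have h9 := mul_left_cancel₀ (mul_ne_zero hc1 hc2) h1
  rw [hF] at h9
  exact h9

theorem split4 {χ χ' : G → ℂ} (hχ : (fun t : C₁ => χ t) ∈ Irr C₁)
    (hχ' : (fun t : C₂ => χ' t) ∈ Irr C₂) (I J : G → G → ℂ) (hI : Inv2 C₁ C₂ I)
    (hs : ∀ X u, I X u ≠ 0 → X ∈ C₁ ∧ u⁻¹ * X⁻¹ * u ∈ C₂)
    (hs' : ∀ X u, J X u ≠ 0 → X ∈ C₁ ∧ u⁻¹ * X⁻¹ * u ∈ C₂) :
    ∑ a : G × G × G × G, χ (a.2.1 * a.1⁻¹) *
      χ' ((a.2.2.2⁻¹ * a.1 * a.2.2.2) * (a.2.2.1⁻¹ * a.2.1⁻¹ * a.2.2.1)) *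
      (I a.2.1 a.2.2.1 * J a.1 a.2.2.2) =
    (χ 1 * χ' 1)⁻¹ * (∑ v : G × G, χ v.1 * χ' (v.2⁻¹ * v.1⁻¹ * v.2) * I v.1 v.2) *
      ∑ v : G × G, χ v.1⁻¹ * χ' (v.2⁻¹ * v.1 * v.2) * J v.1 v.2 := by
  obtain ⟨S, hS⟩ : ∃ S, S = ∑ v : G × G, χ v.1 * χ' (v.2⁻¹ * v.1⁻¹ * v.2) * I v.1 v.2 := ⟨_, rfl⟩
  have h1 : ∀ x w : G, ∑ v : G × G, χ (v.1 * x⁻¹) * χ' ((w⁻¹ * x * w) * (v.2⁻¹ * v.1⁻¹ * v.2)) *
      (I v.1 v.2 * J x w) = (χ 1 * χ' 1)⁻¹ * S * (χ x⁻¹ * χ' (w⁻¹ * x * w) * J x w) := by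
    intro x w
    by_cases h0 : J x w = 0
    · simp [h0]
    · obtain ⟨hx, hw⟩ := hs' x w h0
      have hw' : w⁻¹ * x * w ∈ C₂ := by
        have := C₂.inv_mem hw
        have e : (w⁻¹ * x⁻¹ * w)⁻¹ = w⁻¹ * x * w := by group
        rwa [e] at this
      have h2 := avg2 C₁ C₂ hχ hχ' I hI hs (C₁.inv_mem hx) hw'
      rw [← hS] at h2
      calc _ = (∑ v : G × G, χ (v.1 * x⁻¹) * χ' ((w⁻¹ * x * w) * (v.2⁻¹ * v.1⁻¹ * v.2)) *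
            I v.1 v.2) * J x w := by
            rw [Finset.sum_mul]
            exact Finset.sum_congr rfl fun v _ => by ring
        _ = _ := by
            rw [h2]
            ring
  rw [← hS, Finset.mul_sum]
  calc _ = ∑ x : G, ∑ X : G, ∑ u : G, ∑ w : G, χ (X * x⁻¹) *
        χ' ((w⁻¹ * x * w) * (u⁻¹ * X⁻¹ * u)) * (I X u * J x w) := by
        rw [Fintype.sum_prod_type]
        refine Finset.sum_congr rfl fun x _ => ?_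
        rw [Fintype.sum_prod_type]
        refine Finset.sum_congr rfl fun X _ => ?_
        rw [Fintype.sum_prod_type]
    _ = ∑ x : G, ∑ w : G, ∑ X : G, ∑ u : G, χ (X * x⁻¹) *
        χ' ((w⁻¹ * x * w) * (u⁻¹ * X⁻¹ * u)) * (I X u * J x w) := by
        refine Finset.sum_congr rfl fun x _ => ?_
        rw [Finset.sum_congr rfl fun X _ => Finset.sum_comm, Finset.sum_comm]
    _ = _ := by
        rw [Fintype.sum_prod_type]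
        refine Finset.sum_congr rfl fun x _ => Finset.sum_congr rfl fun w _ => ?_
        rw [← h1 x w, Fintype.sum_prod_type]

end avg

end Pool.Agent.PP.SO.H79
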