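import Pool.Agent.Helper79_ASO.WTHB

/-!
# Squad ASO, row WTH, part C: the conditions, expansions
-/

open scoped BigOperators

set_option autoImplicit false
set_option linter.unusedSectionVars false

noncomputable section

namespace Pool.Agent.PP.SO.H79

open Pool.Agent.Helper51_AWC Pool.Agent.Helper79_WRA Pool.Agent.PP Pool.Agent.PP.KF
open Pool.Agent.PP.K9 Pool.Agent.PP.K9.H97 Pool.Agent.PP.H75 Pool.Agent.PP.T3

attribute [local instance] Ideal.Quotient.field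

section cond

variable {V₀ G : Type} [CommGroup V₀] [Group G]

theorem c13_iff (p q u w x X : G) (m i j : ℕ) (hpx : p * x = x * p) (hpX : p * X = X * p) :
    ((X ^ m) ^ j * (u * w⁻¹) * (x ^ m) ^ i = p * (u * w⁻¹) * p⁻¹ ∧
      (X ^ m) ^ j * u = p * u * q⁻¹) ↔
    (u * q * u⁻¹ = p * (X ^ m) ^ (-(j : ℤ)) ∧ w * q * w⁻¹ = p * (x ^ m) ^ (i : ℤ)) := by
  have hA : p * ((X ^ m) ^ j) = ((X ^ m) ^ j) * p :=
    (((show Commute p X from hpX).pow_right m).pow_right j).eq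
  have hD : p * ((x ^ m) ^ i) = ((x ^ m) ^ i) * p :=
    (((show Commute p x from hpx).pow_right m).pow_right i).eq
  rw [zpow_neg, zpow_natCast, zpow_natCast]
  generalize (X ^ m) ^ j = A at hA ⊢
  generalize (x ^ m) ^ i = D at hD ⊢
  have hAi : A⁻¹ * p = p * A⁻¹ := by
    rw [inv_mul_eq_iff_eq_mul, ← mul_assoc, ← hA, mul_assoc, mul_inv_cancel, mul_one]
  constructor
  · rintro ⟨h1, h2⟩
    constructor
    · calc u * q * u⁻¹ = A⁻¹ * (A * u) * q * u⁻¹ := by group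
        _ = A⁻¹ * (p * u * q⁻¹) * q * u⁻¹ := by rw [h2]
        _ = A⁻¹ * p := by group
        _ = p * A⁻¹ := hAi
    · have h3 : p * u * (q⁻¹ * (w⁻¹ * D)) = p * u * (w⁻¹ * p⁻¹) := by
        calc p * u * (q⁻¹ * (w⁻¹ * D)) = (p * u * q⁻¹) * w⁻¹ * D := by group
          _ = (A * u) * w⁻¹ * D := by rw [h2]
          _ = A * (u * w⁻¹) * D := by group
          _ = _ := by rw [h1]; group
      have h4 := mul_left_cancel h3
      calc w * q * w⁻¹ = w * (q * (w⁻¹ * p⁻¹)) * p := by group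
        _ = w * (q * (q⁻¹ * (w⁻¹ * D))) * p := by rw [h4]
        _ = D * p := by group
        _ = p * D := hD.symm
  · rintro ⟨h3, h4⟩
    have h2 : A * u = p * u * q⁻¹ := by
      calc A * u = A * (u * q * u⁻¹) * u * q⁻¹ := by group
        _ = A * (p * A⁻¹) * u * q⁻¹ := by rw [h3]
        _ = A * (A⁻¹ * p) * u * q⁻¹ := by rw [hAi]
        _ = p * u * q⁻¹ := by group
    refine ⟨?_, h2⟩
    calc A * (u * w⁻¹) * D = (A * u) * w⁻¹ * D := by group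
      _ = p * u * q⁻¹ * w⁻¹ * D := by rw [h2]
      _ = p * u * w⁻¹ * (w * q * w⁻¹)⁻¹ * D := by group
      _ = p * u * w⁻¹ * (p * D)⁻¹ * D := by rw [h4]
      _ = p * u * w⁻¹ * (D * p)⁻¹ * D := by rw [hD]
      _ = p * (u * w⁻¹) * p⁻¹ := by group

theorem mem_C_closure (i : V₀ →* G) (S : Set V₀) (g : G) :
    g ∈ Subgroup.centralizer (((Subgroup.closure S).map i : Subgroup G) : Set G) ↔
      ∀ p ∈ S, i p * g = g * i p := by
  rw [Subgroup.mem_centralizer_iff]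
  constructor
  · intro h p hp
    exact h (i p) ⟨p, Subgroup.subset_closure hp, rfl⟩
  · rintro h _ ⟨p, hp, rfl⟩
    induction hp using Subgroup.closure_induction with
    | mem x hx => exact h x hx
    | one => rw [map_one, one_mul, mul_one]
    | mul x y _ _ hx hy =>
      rw [map_mul, mul_assoc, hy, ← mul_assoc, hx, mul_assoc]
    | inv x _ hx =>
      rw [map_inv, inv_mul_eq_iff_eq_mul, ← mul_assoc, hx, mul_assoc, mul_inv_cancel, mul_one]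

/-- the conditions for a pair -/
def PL (i : V₀ →* G) (m : ℕ) (L' : Set (V₀ × V₀ × ℤ)) (X u : G) : Prop :=
  ∀ s ∈ L', u * i s.2.1 * u⁻¹ = i s.1 * (X ^ m) ^ s.2.2

variable {n : ℕ}

/-- the conditions for `(X, u)` -/
def Lm (L : Set (SS n V₀)) : Set (V₀ × V₀ × ℤ) :=
  {t | ∃ s ∈ L, (s.2.2.1, s.2.2.2, -((s.2.1 : ℕ) : ℤ)) = t}

/-- the conditions for `(x, w)` -/
def Lp (L : Set (SS n V₀)) : Set (V₀ × V₀ × ℤ) :=
  {t | ∃ s ∈ L, (s.2.2.1, s.2.2.2, ((s.1 : ℕ) : ℤ)) = t}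

theorem p1_Lm (L : Set (SS n V₀)) : p1 (Lm L) = pL L := by
  unfold p1 pL
  congr 1
  ext p
  constructor
  · rintro ⟨_, ⟨s, hs, rfl⟩, rfl⟩
    exact ⟨s, hs, rfl⟩
  · rintro ⟨s, hs, rfl⟩
    exact ⟨_, ⟨s, hs, rfl⟩, rfl⟩

theorem p1_Lp (L : Set (SS n V₀)) : p1 (Lp L) = pL L := by
  unfold p1 pL
  congr 1
  ext p
  constructor
  · rintro ⟨_, ⟨s, hs, rfl⟩, rfl⟩
    exact ⟨s, hs, rfl⟩
  · rintro ⟨s, hs, rfl⟩
    exact ⟨_, ⟨s, hs, rfl⟩, rfl⟩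

theorem p2_Lm (L : Set (SS n V₀)) : p2 (Lm L) = qL L := by
  unfold p2 qL
  congr 1
  ext p
  constructor
  · rintro ⟨_, ⟨s, hs, rfl⟩, rfl⟩
    exact ⟨s, hs, rfl⟩
  · rintro ⟨s, hs, rfl⟩
    exact ⟨_, ⟨s, hs, rfl⟩, rfl⟩

theorem p2_Lp (L : Set (SS n V₀)) : p2 (Lp L) = qL L := by
  unfold p2 qL
  congr 1
  ext p
  constructor
  · rintro ⟨_, ⟨s, hs, rfl⟩, rfl⟩
    exact ⟨s, hs, rfl⟩
  · rintro ⟨s, hs, rfl⟩
    exact ⟨_, ⟨s, hs, rfl⟩, rfl⟩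

theorem cond_iff {F : Type} (B : Bk F V₀ G) (m : ℕ) (L : Set (SS n V₀)) (x X u w : G)
    (hg : x * X⁻¹ ∈ B.C (pL L)) :
    (∀ s ∈ L, c13 m B.i (x * X⁻¹) x (u * w⁻¹) u s.1 s.2.1 s.2.2.1 s.2.2.2) ↔
    (X ∈ B.C (pL L) ∧ PL B.i m (Lm L) X u) ∧ (x ∈ B.C (pL L) ∧ PL B.i m (Lp L) x w) := by
  have e : (x * X⁻¹)⁻¹ * x = X := by group
  have hX : x ∈ B.C (pL L) → X ∈ B.C (pL L) := by
    intro hx
    rw [← e]
    exact (B.C _).mul_mem ((B.C _).inv_mem hg) hx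
  have hcm : ∀ {g : G}, g ∈ B.C (pL L) → ∀ s ∈ L, B.i s.2.2.1 * g = g * B.i s.2.2.1 := by
    intro g hg s hs
    exact (mem_C_closure B.i _ g).1 hg _ ⟨s, hs, rfl⟩
  unfold c13
  rw [e]
  constructor
  · intro h
    have hx : x ∈ B.C (pL L) := by
      refine (mem_C_closure B.i _ x).2 ?_
      rintro p ⟨s, hs, rfl⟩
      have h1 := (h s hs).1
      rw [eq_mul_inv_iff_mul_eq] at h1
      exact h1.symm
    have hX' := hX hx
    refine ⟨⟨hX', ?_⟩, ⟨hx, ?_⟩⟩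
    · rintro _ ⟨s, hs, rfl⟩
      exact ((c13_iff _ _ u w x X m _ _ (hcm hx s hs) (hcm hX' s hs)).1 (h s hs).2).1
    · rintro _ ⟨s, hs, rfl⟩
      exact ((c13_iff _ _ u w x X m _ _ (hcm hx s hs) (hcm hX' s hs)).1 (h s hs).2).2
  · rintro ⟨⟨hX', h1⟩, ⟨hx, h2⟩⟩ s hs
    refine ⟨?_, ?_⟩
    · rw [eq_mul_inv_iff_mul_eq]
      exact (hcm hx s hs).symm
    · exact (c13_iff _ _ u w x X m _ _ (hcm hx s hs) (hcm hX' s hs)).2
        ⟨h1 _ ⟨s, hs, rfl⟩, h2 _ ⟨s, hs, rfl⟩⟩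

open Classical in
/-- the indicator function of the conditions -/
def ind {F : Type} (B : Bk F V₀ G) (m : ℕ) (L' : Set (V₀ × V₀ × ℤ)) (X u : G) : ℂ :=
  if X ∈ B.C (p1 L') ∧ PL B.i m L' X u then 1 else 0

theorem ind_star {F : Type} (B : Bk F V₀ G) (m : ℕ) (L' : Set (V₀ × V₀ × ℤ)) (X u : G) :
    starRingEnd ℂ (ind B m L' X u) = ind B m L' X u := by
  unfold ind
  split_ifs <;> simp

theorem conj_mem' {C : Subgroup G} {z X : G} (hz : z ∈ C) : z⁻¹ * X * z ∈ C ↔ X ∈ C := by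
  constructor
  · intro h
    have := C.mul_mem (C.mul_mem hz h) (C.inv_mem hz)
    have e : z * (z⁻¹ * X * z) * z⁻¹ = X := by group
    rwa [e] at this
  · intro h
    exact C.mul_mem (C.mul_mem (C.inv_mem hz) h) hz

theorem ind_inv {F : Type} (B : Bk F V₀ G) (m : ℕ) (L' : Set (V₀ × V₀ × ℤ)) :
    Inv2 (B.C (p1 L')) (B.C (p2 L')) (ind B m L') := by
  intro z hz z' hz' X u
  unfold ind
  congr 1
  rw [eq_iff_iff, conj_mem' hz]
  apply and_congr_right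
  intro _
  apply forall₂_congr
  intro s hs
  have h1 : B.i s.2.1 * z' = z' * B.i s.2.1 := (mem_C_closure B.i _ z').1 hz' _ ⟨s, hs, rfl⟩
  have h2 : B.i s.1 * z = z * B.i s.1 := (mem_C_closure B.i _ z).1 hz _ ⟨s, hs, rfl⟩
  have e1 : z⁻¹ * u * z' * B.i s.2.1 * (z⁻¹ * u * z')⁻¹ = z⁻¹ * (u * B.i s.2.1 * u⁻¹) * z := by
    calc _ = z⁻¹ * u * (z' * B.i s.2.1) * z'⁻¹ * u⁻¹ * z := by group
      _ = z⁻¹ * u * (B.i s.2.1 * z') * z'⁻¹ * u⁻¹ * z := by rw [h1]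
      _ = _ := by group
  have e2 : B.i s.1 * ((z⁻¹ * X * z) ^ m) ^ s.2.2 = z⁻¹ * (B.i s.1 * (X ^ m) ^ s.2.2) * z := by
    have e3 : (z⁻¹ * X * z) ^ m = z⁻¹ * X ^ m * z := by
      have := conj_pow (a := z⁻¹) (b := X) (i := m)
      rwa [inv_inv] at this
    have e4 : (z⁻¹ * X ^ m * z) ^ s.2.2 = z⁻¹ * (X ^ m) ^ s.2.2 * z := by
      have := conj_zpow (a := z⁻¹) (b := X ^ m) (i := s.2.2)
      rwa [inv_inv] at this
    rw [e3, e4]
    calc _ = B.i s.1 * z⁻¹ * (X ^ m) ^ s.2.2 * z := by group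
      _ = z⁻¹ * (z * B.i s.1) * z⁻¹ * (X ^ m) ^ s.2.2 * z := by group
      _ = z⁻¹ * (B.i s.1 * z) * z⁻¹ * (X ^ m) ^ s.2.2 * z := by rw [h2]
      _ = _ := by group
  rw [e1, e2]
  constructor
  · intro h
    exact mul_left_cancel (mul_right_cancel h)
  · intro h
    rw [h]

theorem ind_supp {F : Type} (B : Bk F V₀ G) (m : ℕ) (L' : Set (V₀ × V₀ × ℤ)) (X u : G)
    (h : ind B m L' X u ≠ 0) : X ∈ B.C (p1 L') ∧ u⁻¹ * X⁻¹ * u ∈ B.C (p2 L') := by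
  unfold ind at h
  by_cases h0 : X ∈ B.C (p1 L') ∧ PL B.i m L' X u
  · refine ⟨h0.1, (mem_C_closure B.i _ _).2 ?_⟩
    rintro q ⟨s, hs, rfl⟩
    have h1 := h0.2 s hs
    have h2 : B.i s.1 * X = X * B.i s.1 := (mem_C_closure B.i _ X).1 h0.1 _ ⟨s, hs, rfl⟩
    have h3 : Commute (B.i s.1 * (X ^ m) ^ s.2.2) X :=
      (show Commute (B.i s.1) X from h2).mul_left
        (((Commute.refl X).pow_left m).zpow_left _)
    rw [← h1] at h3
    have h4 : Commute (u * B.i s.2.1 * u⁻¹) X⁻¹ := h3.inv_right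
    have h5 : u * B.i s.2.1 * u⁻¹ * X⁻¹ = X⁻¹ * (u * B.i s.2.1 * u⁻¹) := h4.eq
    calc B.i s.2.1 * (u⁻¹ * X⁻¹ * u) = u⁻¹ * (u * B.i s.2.1 * u⁻¹ * X⁻¹) * u := by group
      _ = u⁻¹ * (X⁻¹ * (u * B.i s.2.1 * u⁻¹)) * u := by rw [h5]
      _ = _ := by group
  · rw [if_neg h0] at h
    exact absurd rfl h

end cond

end Pool.Agent.PP.SO.H79
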